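import Mathlib
import Pool.Agent.Helper41.SphereInv

set_option autoImplicit false
set_option maxHeartbeats 1000000

namespace Pool.Agent.Helper72.GC

open MeasureTheory Metric Set
open scoped Real Pointwise

/-- planar sector of angle `π - θ` -/
def sector (θ R : ℝ) : Set (ℝ × ℝ) :=
  {p | p.1 ^ 2 + p.2 ^ 2 < R ∧ 0 < p.1 ∧ 0 < Real.cos θ * p.1 + Real.sin θ * p.2}

theorem measurableSet_sector (θ R : ℝ) : MeasurableSet (sector θ R) := by
  have c1 : Continuous fun p : ℝ × ℝ => p.1 ^ 2 + p.2 ^ 2 := by fun_prop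
  have c2 : Continuous fun p : ℝ × ℝ => Real.cos θ * p.1 + Real.sin θ * p.2 := by fun_prop
  exact ((isOpen_lt c1 continuous_const).inter ((isOpen_lt continuous_const continuous_fst).inter
    (isOpen_lt continuous_const c2))).measurableSet

theorem volume_sector {θ : ℝ} (h0 : 0 ≤ θ) (h1 : θ ≤ π) (R : ℝ) :
    volume (sector θ R) = ENNReal.ofReal ((π - θ) / 2 * R) := by
  have hp := Real.pi_pos
  rcases le_or_gt R 0 with hR | hR
  · have : sector θ R = ∅ := by
      ext p
      simp only [sector, mem_setOf_eq, mem_empty_iff_false, iff_false]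
      rintro ⟨h, -, -⟩
      nlinarith [sq_nonneg p.1, sq_nonneg p.2]
    rw [this, measure_empty, ENNReal.ofReal_of_nonpos]
    apply mul_nonpos_of_nonneg_of_nonpos _ hR
    linarith
  · have hms := measurableSet_sector θ R
    rw [← lintegral_indicator_one hms, ← lintegral_comp_polarCoord_symm]
    have hset : ∀ p ∈ polarCoord.target, ENNReal.ofReal p.1 • (sector θ R).indicator
        (1 : ℝ × ℝ → ENNReal) (polarCoord.symm p)
        = (Ioo 0 (√R) ×ˢ Ioo (θ - π / 2) (π / 2)).indicator (fun q => ENNReal.ofReal q.1) p := by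
      intro p hp'
      rw [polarCoord_target] at hp'
      obtain ⟨hr, hφ⟩ := hp'
      simp only [mem_Ioi] at hr
      have hiff : polarCoord.symm p ∈ sector θ R ↔
          p ∈ (Ioo 0 (√R) ×ˢ Ioo (θ - π / 2) (π / 2)) := by
        simp only [polarCoord_symm_apply, sector, mem_setOf_eq, mem_prod, mem_Ioo]
        have e1 : (p.1 * Real.cos p.2) ^ 2 + (p.1 * Real.sin p.2) ^ 2 = p.1 ^ 2 := by
          nlinarith [Real.sin_sq_add_cos_sq p.2]
        have e2 : Real.cos θ * (p.1 * Real.cos p.2) + Real.sin θ * (p.1 * Real.sin p.2)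
            = p.1 * Real.cos (p.2 - θ) := by rw [Real.cos_sub]; ring
        rw [e1, e2, ← Real.lt_sqrt hr.le, mul_pos_iff_of_pos_left hr, mul_pos_iff_of_pos_left hr]
        constructor
        · rintro ⟨a, b, c⟩
          have b' : p.2 < π / 2 := by
            by_contra hcon
            rw [not_lt] at hcon
            have := Real.cos_nonpos_of_pi_div_two_le_of_le hcon (by linarith [hφ.2])
            linarith
          have b'' : -(π / 2) < p.2 := by
            by_contra hcon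
            rw [not_lt] at hcon
            have := Real.cos_nonpos_of_pi_div_two_le_of_le (x := -p.2) (by linarith)
              (by linarith [hφ.1])
            rw [Real.cos_neg] at this
            linarith
          refine ⟨⟨hr, a⟩, ?_, b'⟩
          by_contra hcon
          rw [not_lt] at hcon
          have := Real.cos_nonpos_of_pi_div_two_le_of_le (x := -(p.2 - θ)) (by linarith)
            (by linarith)
          rw [Real.cos_neg] at this
          linarith
        · rintro ⟨⟨-, a⟩, b, c⟩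
          refine ⟨a, ?_, ?_⟩
          · exact Real.cos_pos_of_mem_Ioo ⟨by linarith, c⟩
          · exact Real.cos_pos_of_mem_Ioo ⟨by linarith, by linarith⟩
      by_cases hmem : polarCoord.symm p ∈ sector θ R
      · rw [indicator_of_mem hmem, indicator_of_mem (hiff.1 hmem)]
        simp
      · rw [indicator_of_notMem hmem, indicator_of_notMem (fun h => hmem (hiff.2 h))]
        simp
    rw [setLIntegral_congr_fun (by rw [polarCoord_target]; measurability) hset]
    rw [lintegral_indicator (by measurability), Measure.restrict_restrict (by measurability)]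
    have hinter : (Ioo 0 (√R) ×ˢ Ioo (θ - π / 2) (π / 2)) ∩ polarCoord.target
        = Ioo 0 (√R) ×ˢ Ioo (θ - π / 2) (π / 2) := by
      rw [polarCoord_target]
      apply inter_eq_left.2
      rintro ⟨r, φ⟩ ⟨hr, hφ⟩
      simp only [mem_Ioo] at hr hφ
      exact ⟨hr.1, by constructor <;> simp only <;> linarith [hφ.1, hφ.2]⟩
    rw [hinter, Measure.volume_eq_prod, ← Measure.prod_restrict]
    have : ∫⁻ q : ℝ × ℝ, ENNReal.ofReal q.1 ∂((volume.restrict (Ioo 0 (√R))).prod
        (volume.restrict (Ioo (θ - π / 2) (π / 2))))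
        = (∫⁻ r in Ioo 0 (√R), ENNReal.ofReal r) * ENNReal.ofReal (π - θ) := by
      have h := lintegral_prod_mul (μ := volume.restrict (Ioo 0 (√R)))
        (ν := volume.restrict (Ioo (θ - π / 2) (π / 2)))
        (f := fun r => ENNReal.ofReal r) (g := fun _ => 1)
        (by fun_prop) (by fun_prop)
      simp only [mul_one] at h
      rw [h]
      congr 1
      rw [lintegral_one, Measure.restrict_apply_univ, Real.volume_Ioo]
      congr 1; ring
    rw [this]
    have h2 : ∫⁻ r in Ioo 0 (√R), ENNReal.ofReal r = ENNReal.ofReal (R / 2) := by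
      rw [← ofReal_integral_eq_lintegral_ofReal]
      · rw [← integral_Ioc_eq_integral_Ioo, ← intervalIntegral.integral_of_le (Real.sqrt_nonneg R),
          integral_id, Real.sq_sqrt hR.le]
        congr 1; ring
      · exact (continuous_id.integrableOn_Icc).mono_set Ioo_subset_Icc_self
      · filter_upwards [ae_restrict_mem measurableSet_Ioo] with r hr using hr.1.le
    rw [h2, ← ENNReal.ofReal_mul (by positivity)]
    congr 1; ring

/-- the wedge of the unit ball, in product coordinates `(z, (x, y))` -/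
def wedgeProd (θ : ℝ) : Set (ℝ × (ℝ × ℝ)) :=
  {q | q.2 ∈ sector θ (1 - q.1 ^ 2)}

theorem measurableSet_wedgeProd (θ : ℝ) : MeasurableSet (wedgeProd θ) := by
  have c0 : Continuous fun p : ℝ × (ℝ × ℝ) => p.2.1 ^ 2 + p.2.2 ^ 2 := by fun_prop
  have c1 : Continuous fun p : ℝ × (ℝ × ℝ) => 1 - p.1 ^ 2 := by fun_prop
  have c2 : Continuous fun p : ℝ × (ℝ × ℝ) => Real.cos θ * p.2.1 + Real.sin θ * p.2.2 := by
    fun_prop
  have c3 : Continuous fun p : ℝ × (ℝ × ℝ) => p.2.1 := by fun_prop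
  exact ((isOpen_lt c0 c1).inter ((isOpen_lt continuous_const c3).inter
    (isOpen_lt continuous_const c2))).measurableSet

theorem volume_wedgeProd {θ : ℝ} (h0 : 0 ≤ θ) (h1 : θ ≤ π) :
    volume (wedgeProd θ) = ENNReal.ofReal (2 / 3 * (π - θ)) := by
  rw [Measure.volume_eq_prod, Measure.prod_apply (measurableSet_wedgeProd θ)]
  have hs : ∀ z : ℝ, volume (Prod.mk z ⁻¹' (wedgeProd θ))
      = ENNReal.ofReal ((π - θ) / 2 * (1 - z ^ 2)) := by
    intro z
    exact volume_sector h0 h1 (1 - z ^ 2)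
  simp_rw [hs]
  have hsplit : ∀ z : ℝ, ENNReal.ofReal ((π - θ) / 2 * (1 - z ^ 2))
      = (Icc (-1 : ℝ) 1).indicator (fun z => ENNReal.ofReal ((π - θ) / 2 * (1 - z ^ 2))) z := by
    intro z
    by_cases hz : z ∈ Icc (-1 : ℝ) 1
    · rw [indicator_of_mem hz]
    · rw [indicator_of_notMem hz, ENNReal.ofReal_of_nonpos]
      apply mul_nonpos_of_nonneg_of_nonpos (by linarith)
      by_contra hcon
      rw [not_le] at hcon
      exact hz (abs_le.1 (abs_le_one_iff_mul_self_le_one.2 (by nlinarith)))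
  rw [lintegral_congr hsplit, lintegral_indicator measurableSet_Icc, ← ofReal_integral_eq_lintegral_ofReal]
  · rw [integral_Icc_eq_integral_Ioc, ← intervalIntegral.integral_of_le (by norm_num)]
    congr 1
    rw [intervalIntegral.integral_const_mul, intervalIntegral.integral_sub (by simp)
      (by apply Continuous.intervalIntegrable; fun_prop), integral_pow]
    simp
    ring
  · apply Continuous.integrableOn_Icc
    fun_prop
  · filter_upwards [ae_restrict_mem measurableSet_Icc] with z hz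
    have : z ^ 2 ≤ 1 := by nlinarith [hz.1, hz.2]
    have h3 : 0 ≤ (π - θ) / 2 := by linarith
    show 0 ≤ (π - θ) / 2 * (1 - z ^ 2)
    exact mul_nonneg h3 (by linarith)

/-- Euclidean three-space. -/
abbrev E3 := EuclideanSpace ℝ (Fin 3)

/-- The unit sphere `S²` in three-space. -/
abbrev S2 : Type := sphere (0 : E3) 1

/-- the wedge of the unit ball of `E3` in standard position -/
theorem volume_stdWedge {θ : ℝ} (h0 : 0 ≤ θ) (h1 : θ ≤ π) :
    volume {x : E3 | ‖x‖ < 1 ∧ 0 < x 0 ∧ 0 < Real.cos θ * x 0 + Real.sin θ * x 1}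
      = ENNReal.ofReal (2 / 3 * (π - θ)) := by
  rw [← volume_wedgeProd h0 h1]
  have m1 := EuclideanSpace.volume_preserving_symm_measurableEquiv_toLp (Fin 3)
  have m2 := MeasureTheory.volume_preserving_piFinSuccAbove (fun _ : Fin 3 => ℝ) 2
  have m3 := MeasureTheory.volume_preserving_finTwoArrow ℝ
  have m4 : MeasurePreserving (Prod.map (id : ℝ → ℝ) (MeasurableEquiv.finTwoArrow (α := ℝ)))
      (volume : Measure (ℝ × (Fin 2 → ℝ))) (volume : Measure (ℝ × (ℝ × ℝ))) := by
    rw [Measure.volume_eq_prod, Measure.volume_eq_prod]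
    exact (MeasurePreserving.id volume).prod m3
  have m5 := (m4.comp m2).comp m1
  rw [← m5.measure_preimage (measurableSet_wedgeProd θ).nullMeasurableSet]
  congr 1
  ext x
  simp only [mem_setOf_eq, mem_preimage, wedgeProd, sector, Function.comp_apply, Prod.map_fst, id,
    Prod.map_snd]
  have hn : ‖x‖ ^ 2 = x 0 ^ 2 + x 1 ^ 2 + x 2 ^ 2 := by
    rw [EuclideanSpace.norm_sq_eq]; simp [Fin.sum_univ_three]
  have hlt : ‖x‖ < 1 ↔ x 0 ^ 2 + x 1 ^ 2 < 1 - x 2 ^ 2 := by
    rw [← sq_lt_one_iff₀ (norm_nonneg x), hn]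
    constructor <;> intro h <;> linarith
  rw [hlt]
  rfl

open scoped RealInnerProductSpace

/-- surface area on the unit sphere -/
noncomputable def area (R : Set S2) : ℝ := ((volume : Measure E3).toSphere R).toReal

theorem exists_perp (u : E3) : ∃ w : E3, ‖w‖ = 1 ∧ ⟪u, w⟫ = 0 := by
  have h1 : (ℝ ∙ u)ᗮ ≠ ⊥ := by
    intro hbot
    have h2 := Submodule.finrank_add_finrank_orthogonal (ℝ ∙ u)
    rw [hbot, finrank_bot] at h2
    have h3 : Module.finrank ℝ (ℝ ∙ u) ≤ 1 := finrank_span_le_card (R := ℝ) ({u} : Set E3) |>.trans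
      (by simp)
    have h4 : Module.finrank ℝ E3 = 3 := by simp
    omega
  obtain ⟨w, hw, hw0⟩ := Submodule.exists_mem_ne_zero_of_ne_bot h1
  refine ⟨‖w‖⁻¹ • w, ?_, ?_⟩
  · rw [norm_smul, norm_inv, norm_norm, inv_mul_cancel₀ (norm_ne_zero_iff.2 hw0)]
  · rw [inner_smul_right, Submodule.mem_orthogonal_singleton_iff_inner_right.1 hw, mul_zero]

theorem exists_frame {u v : E3} (hu : ‖u‖ = 1) (hv : ‖v‖ = 1) :
    ∃ w : E3, ‖w‖ = 1 ∧ ⟪u, w⟫ = 0 ∧
      v = Real.cos (Real.arccos ⟪u, v⟫) • u + Real.sin (Real.arccos ⟪u, v⟫) • w := by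
  have hs1 : -1 ≤ ⟪u, v⟫ := neg_one_le_real_inner_of_norm_eq_one hu hv
  have hs2 : ⟪u, v⟫ ≤ 1 := real_inner_le_one_of_norm_eq_one hu hv
  rw [Real.cos_arccos hs1 hs2]
  obtain ⟨r, hr⟩ : ∃ r, r = v - ⟪u, v⟫ • u := ⟨_, rfl⟩
  have hv' : v = ⟪u, v⟫ • u + r := by rw [hr]; abel
  have huu : ⟪u, u⟫ = 1 := by rw [real_inner_self_eq_norm_sq, hu]; norm_num
  have hvv : ⟪v, v⟫ = 1 := by rw [real_inner_self_eq_norm_sq, hv]; norm_num
  have hur : ⟪u, r⟫ = 0 := by
    rw [hr, inner_sub_right, inner_smul_right, huu]; ring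
  have hrr : ‖r‖ = Real.sin (Real.arccos ⟪u, v⟫) := by
    rw [Real.sin_arccos, ← Real.sqrt_sq (norm_nonneg r), ← real_inner_self_eq_norm_sq]
    congr 1
    rw [hr, inner_sub_left, inner_sub_right, inner_sub_right, inner_smul_left, inner_smul_right,
      inner_smul_left, inner_smul_right, huu, hvv, real_inner_comm v u]
    simp only [conj_trivial]
    ring
  rcases eq_or_ne r 0 with h0 | h0
  · obtain ⟨w, hw1, hw2⟩ := exists_perp u
    refine ⟨w, hw1, hw2, ?_⟩
    rw [← hrr, h0, norm_zero, zero_smul, add_zero]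
    rw [h0, add_zero] at hv'
    exact hv'
  · refine ⟨‖r‖⁻¹ • r, ?_, ?_, ?_⟩
    · rw [norm_smul, norm_inv, norm_norm, inv_mul_cancel₀ (norm_ne_zero_iff.2 h0)]
    · rw [inner_smul_right, hur, mul_zero]
    · rw [← hrr, smul_smul, mul_inv_cancel₀ (norm_ne_zero_iff.2 h0), one_smul]
      exact hv'

theorem volume_wedge {u v : E3} (hu : ‖u‖ = 1) (hv : ‖v‖ = 1) :
    volume {x : E3 | ‖x‖ < 1 ∧ 0 < ⟪u, x⟫ ∧ 0 < ⟪v, x⟫}
      = ENNReal.ofReal (2 / 3 * (π - Real.arccos ⟪u, v⟫)) := by
  obtain ⟨w, hw, huw, hvw⟩ := exists_frame hu hv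
  set θ := Real.arccos ⟪u, v⟫ with hθ
  rw [← volume_stdWedge (Real.arccos_nonneg _) (Real.arccos_le_pi _)]
  have huu : ⟪u, u⟫ = 1 := by rw [real_inner_self_eq_norm_sq, hu]; norm_num
  have hww : ⟪w, w⟫ = 1 := by rw [real_inner_self_eq_norm_sq, hw]; norm_num
  have hwu : ⟪w, u⟫ = 0 := by rw [real_inner_comm]; exact huw
  obtain ⟨b, hb⟩ := Orthonormal.exists_orthonormalBasis_extension_of_card_eq (𝕜 := ℝ) (E := E3)
    (ι := Fin 3) (by simp) (v := ![u, w, 0]) (s := {0, 1}) (by
      rw [orthonormal_iff_ite]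
      rintro ⟨i, hi⟩ ⟨j, hj⟩
      simp only [mem_insert_iff, mem_singleton_iff] at hi hj
      rcases hi with rfl | rfl <;> rcases hj with rfl | rfl <;>
        simp [hu, hw, huw, hwu])
  have hb0 : b 0 = u := by rw [hb 0 (by simp)]; simp
  have hb1 : b 1 = w := by rw [hb 1 (by simp)]; simp
  have hm := b.measurePreserving_repr
  have hopen : IsOpen {x : E3 | ‖x‖ < 1 ∧ 0 < x 0 ∧ 0 < Real.cos θ * x 0 + Real.sin θ * x 1} := by
    have c1 : Continuous fun x : E3 => x 0 := by fun_prop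
    have c2 : Continuous fun x : E3 => Real.cos θ * x 0 + Real.sin θ * x 1 := by fun_prop
    exact (isOpen_lt continuous_norm continuous_const).inter
      ((isOpen_lt continuous_const c1).inter (isOpen_lt continuous_const c2))
  rw [← hm.measure_preimage hopen.measurableSet.nullMeasurableSet]
  congr 1
  ext x
  simp only [mem_setOf_eq, mem_preimage, LinearIsometryEquiv.norm_map]
  rw [b.repr_apply_apply, b.repr_apply_apply, hb0, hb1]
  nth_rewrite 1 [hvw]
  rw [inner_add_left, inner_smul_left, inner_smul_left]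
  simp only [conj_trivial]

theorem area_wedge {u v : E3} (hu : ‖u‖ = 1) (hv : ‖v‖ = 1) :
    area {x : S2 | 0 < ⟪u, (x : E3)⟫ ∧ 0 < ⟪v, (x : E3)⟫}
      = 2 * (π - Real.arccos ⟪u, v⟫) := by
  have hopen : IsOpen {x : S2 | 0 < ⟪u, (x : E3)⟫ ∧ 0 < ⟪v, (x : E3)⟫} := by
    have c1 : Continuous fun x : S2 => ⟪u, (x : E3)⟫ := by fun_prop
    have c2 : Continuous fun x : S2 => ⟪v, (x : E3)⟫ := by fun_prop
    exact (isOpen_lt continuous_const c1).inter (isOpen_lt continuous_const c2)
  rw [area, Measure.toSphere_apply' _ hopen.measurableSet]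
  have hset : (Ioo (0 : ℝ) 1 • ((↑) '' {x : S2 | 0 < ⟪u, (x : E3)⟫ ∧ 0 < ⟪v, (x : E3)⟫}) : Set E3)
      = {x : E3 | ‖x‖ < 1 ∧ 0 < ⟪u, x⟫ ∧ 0 < ⟪v, x⟫} := by
    ext y
    constructor
    · rintro ⟨r, hr, z, ⟨x, ⟨h1, h2⟩, rfl⟩, rfl⟩
      simp only [mem_setOf_eq]
      refine ⟨?_, ?_, ?_⟩
      · rw [norm_smul, norm_eq_of_mem_sphere, mul_one, Real.norm_eq_abs, abs_of_pos hr.1]
        exact hr.2
      · rw [inner_smul_right]; exact mul_pos hr.1 h1
      · rw [inner_smul_right]; exact mul_pos hr.1 h2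
    · rintro ⟨h0, h1, h2⟩
      have hy : y ≠ 0 := by rintro rfl; simp at h1
      have hn : 0 < ‖y‖ := norm_pos_iff.2 hy
      refine ⟨‖y‖, ⟨hn, h0⟩, ‖y‖⁻¹ • y, ⟨⟨‖y‖⁻¹ • y, ?_⟩, ⟨?_, ?_⟩, rfl⟩, ?_⟩
      · rw [mem_sphere_zero_iff_norm, norm_smul, norm_inv, norm_norm, inv_mul_cancel₀ hn.ne']
      · simp only [inner_smul_right]; exact mul_pos (inv_pos.2 hn) h1
      · simp only [inner_smul_right]; exact mul_pos (inv_pos.2 hn) h2
      · simp only [smul_smul, mul_inv_cancel₀ hn.ne', one_smul]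
  rw [hset, volume_wedge hu hv]
  have h3 : (Module.finrank ℝ E3 : ENNReal) = ENNReal.ofReal 3 := by simp
  rw [h3, ← ENNReal.ofReal_mul (by norm_num), ENNReal.toReal_ofReal]
  · ring
  · have := Real.arccos_le_pi ⟪u, v⟫
    have : 0 ≤ π - Real.arccos ⟪u, v⟫ := by linarith
    positivity

end Pool.Agent.Helper72.GC
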