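import Mathlib
import Pool.Agent.Helper72.GC.Wedge

set_option autoImplicit false
set_option maxHeartbeats 1000000

namespace Pool.Agent.Helper72.GC

open MeasureTheory Metric Set
open scoped Real Pointwise RealInnerProductSpace

/-- A great circle: the intersection of the unit sphere with a plane through the origin. -/
def IsGreatCircle (C : Set S2) : Prop :=
  ∃ u : E3, u ≠ 0 ∧ C = {x : S2 | ⟪u, (x : E3)⟫ = 0}

/-- A simple arrangement of `n` great circles: `n` distinct great circles, no three of which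
pass through a common point. -/
structure IsSimpleArrangement {n : ℕ} (C : Fin n → Set S2) : Prop where
  circle : ∀ i, IsGreatCircle (C i)
  distinct : Function.Injective C
  simple : ∀ i j k, i ≠ j → i ≠ k → j ≠ k → C i ∩ C j ∩ C k = ∅

/-- The regions of an arrangement: the connected components of the complement of the circles. -/
def regions {n : ℕ} (C : Fin n → Set S2) : Set (Set S2) :=
  {R | ∃ x ∈ (⋃ i, C i)ᶜ, R = connectedComponentIn (⋃ i, C i)ᶜ x}

/-- The sum of the squares of the areas of the regions. -/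
noncomputable def Q {n : ℕ} (C : Fin n → Set S2) : ℝ := ∑ᶠ R ∈ regions C, area R ^ 2

/-- Moser's quantity: the infimum of `Q` over the simple arrangements of `n` great circles. -/
noncomputable def S (n : ℕ) : ℝ :=
  sInf {q : ℝ | ∃ C : Fin n → Set S2, IsSimpleArrangement C ∧ Q C = q}

/-- sign -/
def sg (b : Bool) : ℝ := if b then 1 else -1

@[simp] theorem sg_true : sg true = 1 := rfl
@[simp] theorem sg_false : sg false = -1 := rfl

theorem sg_mul_self (b : Bool) : sg b * sg b = 1 := by cases b <;> simp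

/-- sign cell -/
def cell {n : ℕ} (u : Fin n → E3) (s : Fin n → Bool) : Set S2 :=
  {x | ∀ i, 0 < sg (s i) * ⟪u i, (x : E3)⟫}

variable {n : ℕ} (u : Fin n → E3)

theorem isPreconnected_cell (i0 : Fin n) (s : Fin n → Bool) : IsPreconnected (cell u s) := by
  set K : Set E3 := {y | ∀ i, 0 < sg (s i) * ⟪u i, y⟫} with hK
  have hconv : Convex ℝ K := by
    have : K = ⋂ i, {y | 0 < sg (s i) * ⟪u i, y⟫} := by
      ext y; simp [hK]
    rw [this]
    apply convex_iInter
    intro i
    have hlin : IsLinearMap ℝ (fun y : E3 => sg (s i) * ⟪u i, y⟫) :=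
      ⟨fun a b => by rw [inner_add_right]; ring, fun c a => by
        rw [inner_smul_right]; simp only [smul_eq_mul]; ring⟩
    exact convex_halfSpace_gt hlin 0
  have hne : ∀ y ∈ K, y ≠ 0 := by
    rintro y hy rfl
    have := hy i0
    simp at this
  have hpre := hconv.isPreconnected
  haveI : PreconnectedSpace K := isPreconnected_iff_preconnectedSpace.1 hpre
  let g : K → S2 := fun y => ⟨‖(y : E3)‖⁻¹ • (y : E3), by
    rw [mem_sphere_zero_iff_norm, norm_smul, norm_inv, norm_norm,
      inv_mul_cancel₀ (norm_ne_zero_iff.2 (hne y y.2))]⟩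
  have hg : Continuous g := by
    apply Continuous.subtype_mk
    refine Continuous.smul (f := fun y : K => ‖(y : E3)‖⁻¹) (g := fun y : K => (y : E3)) ?_
      continuous_subtype_val
    apply Continuous.inv₀ (continuous_norm.comp continuous_subtype_val)
    intro y
    exact norm_ne_zero_iff.2 (hne y y.2)
  have hrange : cell u s = range g := by
    ext x
    constructor
    · intro hx
      refine ⟨⟨(x : E3), hx⟩, ?_⟩
      apply Subtype.ext
      show ‖(x : E3)‖⁻¹ • (x : E3) = x
      rw [norm_eq_of_mem_sphere, inv_one, one_smul]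
    · rintro ⟨y, rfl⟩ i
      show 0 < sg (s i) * ⟪u i, ‖(y : E3)‖⁻¹ • (y : E3)⟫
      rw [inner_smul_right]
      have h1 := y.2 i
      have h2 : 0 < ‖(y : E3)‖⁻¹ := inv_pos.2 (norm_pos_iff.2 (hne y y.2))
      nlinarith [mul_pos h2 h1]
  rw [hrange]
  exact isPreconnected_range hg

/-- sign vector of a point -/
noncomputable def sgn (x : S2) : Fin n → Bool := fun i => decide (0 < ⟪u i, (x : E3)⟫)

theorem mem_cell_sgn {x : S2} (hx : ∀ i, ⟪u i, (x : E3)⟫ ≠ 0) : x ∈ cell u (sgn u x) := by
  intro i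
  by_cases h : 0 < ⟪u i, (x : E3)⟫
  · simp [sgn, h]
  · have : ⟪u i, (x : E3)⟫ < 0 := lt_of_le_of_ne (not_lt.1 h) (hx i)
    simp [sgn, h, this]

theorem sgn_of_mem {x : S2} {s : Fin n → Bool} (hx : x ∈ cell u s) : sgn u x = s := by
  funext i
  have := hx i
  cases hs : s i with
  | true => rw [hs] at this; simp at this; simp [sgn, this]
  | false => rw [hs] at this; simp at this; simp [sgn, this.le]

theorem ne_of_mem_cell {x : S2} {s : Fin n → Bool} (hx : x ∈ cell u s) (i : Fin n) :
    ⟪u i, (x : E3)⟫ ≠ 0 := by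
  intro h
  have := hx i
  rw [h] at this
  simp at this

theorem component_eq (i0 : Fin n) {C : Fin n → Set S2}
    (hC : ∀ i, C i = {x : S2 | ⟪u i, (x : E3)⟫ = 0}) {x : S2} (hx : x ∈ (⋃ i, C i)ᶜ) :
    connectedComponentIn (⋃ i, C i)ᶜ x = cell u (sgn u x) := by
  have hU : ∀ y : S2, y ∈ (⋃ i, C i)ᶜ ↔ ∀ i, ⟪u i, (y : E3)⟫ ≠ 0 := by
    intro y
    simp only [mem_compl_iff, mem_iUnion, not_exists]
    constructor
    · intro h i hi
      exact h i (by rw [hC]; exact hi)
    · intro h i hi
      rw [hC] at hi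
      exact h i hi
  apply Subset.antisymm
  · intro y hy
    have hyU := (hU y).1 (connectedComponentIn_subset _ _ hy)
    have hxU := (hU x).1 hx
    have hsame : sgn u y = sgn u x := by
      funext i
      have hpre : IsPreconnected (connectedComponentIn (⋃ i, C i)ᶜ x) :=
        isPreconnected_connectedComponentIn
      have hxm : x ∈ connectedComponentIn (⋃ i, C i)ᶜ x := mem_connectedComponentIn hx
      have hcont : Continuous fun z : S2 => ⟪u i, (z : E3)⟫ := by fun_prop
      have hno : ∀ z ∈ connectedComponentIn (⋃ i, C i)ᶜ x, ⟪u i, (z : E3)⟫ ≠ 0 := fun z hz =>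
        (hU z).1 (connectedComponentIn_subset _ _ hz) i
      by_cases h1 : 0 < ⟪u i, (x : E3)⟫ <;> by_cases h2 : 0 < ⟪u i, (y : E3)⟫
      · simp [sgn, h1, h2]
      · exfalso
        obtain ⟨z, hz, hz0⟩ := hpre.intermediate_value hy hxm hcont.continuousOn
          (show (0 : ℝ) ∈ Icc _ _ from ⟨not_lt.1 h2, h1.le⟩)
        exact hno z hz hz0
      · exfalso
        obtain ⟨z, hz, hz0⟩ := hpre.intermediate_value hxm hy hcont.continuousOn
          (show (0 : ℝ) ∈ Icc _ _ from ⟨not_lt.1 h1, h2.le⟩)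
        exact hno z hz hz0
      · simp [sgn, h1, h2]
    rw [← hsame]
    exact mem_cell_sgn u hyU
  · apply (isPreconnected_cell u i0 _).subset_connectedComponentIn
    · exact mem_cell_sgn u ((hU x).1 hx)
    · intro y hy
      exact (hU y).2 (fun i => ne_of_mem_cell u hy i)

theorem regions_eq (i0 : Fin n) {C : Fin n → Set S2}
    (hC : ∀ i, C i = {x : S2 | ⟪u i, (x : E3)⟫ = 0}) :
    regions C = (cell u) '' {s | (cell u s).Nonempty} := by
  have hU : ∀ y : S2, y ∈ (⋃ i, C i)ᶜ ↔ ∀ i, ⟪u i, (y : E3)⟫ ≠ 0 := by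
    intro y
    simp only [mem_compl_iff, mem_iUnion, not_exists]
    constructor
    · intro h i hi
      exact h i (by rw [hC]; exact hi)
    · intro h i hi
      rw [hC] at hi
      exact h i hi
  ext R
  constructor
  · rintro ⟨x, hx, rfl⟩
    rw [component_eq u i0 hC hx]
    exact ⟨sgn u x, ⟨x, mem_cell_sgn u ((hU x).1 hx)⟩, rfl⟩
  · rintro ⟨s, ⟨x, hx⟩, rfl⟩
    have hxU : x ∈ (⋃ i, C i)ᶜ := (hU x).2 (fun i => ne_of_mem_cell u hx i)
    refine ⟨x, hxU, ?_⟩
    rw [component_eq u i0 hC hxU, sgn_of_mem u hx]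

theorem Q_eq_sum (i0 : Fin n) {C : Fin n → Set S2}
    (hC : ∀ i, C i = {x : S2 | ⟪u i, (x : E3)⟫ = 0}) :
    Q C = ∑ s : Fin n → Bool, area (cell u s) ^ 2 := by
  rw [Q, regions_eq u i0 hC, finsum_mem_image]
  · apply finsum_mem_eq_sum_of_inter_support_eq
    ext s
    simp only [mem_inter_iff, mem_setOf_eq, Function.mem_support, Finset.coe_univ, mem_univ,
      true_and, and_iff_right_iff_imp]
    intro h
    by_contra hcon
    rw [not_nonempty_iff_eq_empty] at hcon
    apply h
    rw [hcon]
    simp [area]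
  · intro s ⟨x, hx⟩ t _ hst
    rw [← sgn_of_mem u hx, sgn_of_mem u (hst ▸ hx : x ∈ cell u t)]

end Pool.Agent.Helper72.GC
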