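import Mathlib
import Pool.Agent.Helper72.GC.Cells

set_option autoImplicit false
set_option maxHeartbeats 1000000

namespace Pool.Agent.Helper72.GC

open MeasureTheory Metric Set
open scoped Real Pointwise RealInnerProductSpace

/-- surface measure -/
noncomputable abbrev sm : Measure S2 := (volume : Measure E3).toSphere

theorem sm_circle {u : E3} (hu : u ≠ 0) : sm {x : S2 | ⟪u, (x : E3)⟫ = 0} = 0 := by
  have hcl : IsClosed {x : S2 | ⟪u, (x : E3)⟫ = 0} := by
    have c1 : Continuous fun x : S2 => ⟪u, (x : E3)⟫ := by fun_prop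
    exact isClosed_eq c1 continuous_const
  rw [sm, Measure.toSphere_apply' _ hcl.measurableSet]
  have hsub : (Ioo (0 : ℝ) 1 • ((↑) '' {x : S2 | ⟪u, (x : E3)⟫ = 0}) : Set E3)
      ⊆ ((ℝ ∙ u)ᗮ : Submodule ℝ E3) := by
    rintro y ⟨r, hr, z, ⟨x, hx, rfl⟩, rfl⟩
    rw [SetLike.mem_coe, Submodule.mem_orthogonal_singleton_iff_inner_right]
    simp only [inner_smul_right]
    rw [show ⟪u, (x : E3)⟫ = 0 from hx, mul_zero]
  have hnull : volume (((ℝ ∙ u)ᗮ : Submodule ℝ E3) : Set E3) = 0 := by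
    apply Measure.addHaar_submodule
    intro htop
    have : u ∈ (ℝ ∙ u)ᗮ := by rw [htop]; trivial
    rw [Submodule.mem_orthogonal_singleton_iff_inner_right] at this
    exact hu (inner_self_eq_zero.1 this)
  rw [measure_mono_null hsub hnull, mul_zero]

theorem area_split {W : Set S2} {u : E3} (hu : u ≠ 0) :
    area W = area (W ∩ {x : S2 | 0 < ⟪u, (x : E3)⟫}) + area (W ∩ {x : S2 | 0 < ⟪-u, (x : E3)⟫}) := by
  have c1 : Continuous fun x : S2 => ⟪u, (x : E3)⟫ := by fun_prop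
  have c2 : Continuous fun x : S2 => ⟪-u, (x : E3)⟫ := by fun_prop
  have hm1 : MeasurableSet {x : S2 | 0 < ⟪u, (x : E3)⟫} :=
    (isOpen_lt continuous_const c1).measurableSet
  have hm2 : MeasurableSet {x : S2 | 0 < ⟪-u, (x : E3)⟫} :=
    (isOpen_lt continuous_const c2).measurableSet
  have h1 : sm W = sm (W ∩ {x : S2 | 0 < ⟪u, (x : E3)⟫}) + sm (W \ {x : S2 | 0 < ⟪u, (x : E3)⟫}) :=
    (measure_inter_add_diff W hm1).symm
  have h2 : sm (W \ {x : S2 | 0 < ⟪u, (x : E3)⟫}) = sm (W ∩ {x : S2 | 0 < ⟪-u, (x : E3)⟫}) := by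
    apply le_antisymm
    · have hsub : W \ {x : S2 | 0 < ⟪u, (x : E3)⟫} ⊆
          (W ∩ {x : S2 | 0 < ⟪-u, (x : E3)⟫}) ∪ {x : S2 | ⟪u, (x : E3)⟫ = 0} := by
        rintro x ⟨hxW, hx⟩
        simp only [mem_setOf_eq, not_lt] at hx
        rcases eq_or_lt_of_le hx with h | h
        · right; exact h
        · left
          refine ⟨hxW, ?_⟩
          simp only [mem_setOf_eq, inner_neg_left]
          linarith
      calc sm (W \ {x : S2 | 0 < ⟪u, (x : E3)⟫}) ≤ _ := measure_mono hsub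
        _ ≤ _ := measure_union_le _ _
        _ = _ := by rw [sm_circle hu, add_zero]
    · apply measure_mono
      rintro x ⟨hxW, hx⟩
      simp only [mem_setOf_eq, inner_neg_left] at hx
      refine ⟨hxW, ?_⟩
      simp only [mem_setOf_eq, not_lt]
      linarith
  rw [area, area, area, ← ENNReal.toReal_add (measure_ne_top _ _) (measure_ne_top _ _)]
  congr 1
  rw [← h2]
  exact h1

/-- area of a cell with four sign conditions -/
noncomputable def a4 (p q r t : E3) : ℝ :=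
  area {x : S2 | 0 < ⟪p, (x : E3)⟫ ∧ 0 < ⟪q, (x : E3)⟫ ∧ 0 < ⟪r, (x : E3)⟫ ∧ 0 < ⟪t, (x : E3)⟫}

theorem wedge_eq {p q r t : E3} (hp : ‖p‖ = 1) (hq : ‖q‖ = 1) (hr : ‖r‖ = 1) (ht : ‖t‖ = 1) :
    a4 p q r t + a4 p q (-r) t + a4 p q r (-t) + a4 p q (-r) (-t)
      = 2 * (π - Real.arccos ⟪p, q⟫) := by
  have hr0 : r ≠ 0 := by rintro rfl; simp at hr
  have ht0 : t ≠ 0 := by rintro rfl; simp at ht
  rw [← area_wedge hp hq, area_split hr0 (W := {x : S2 | 0 < ⟪p, (x : E3)⟫ ∧ 0 < ⟪q, (x : E3)⟫}),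
    area_split ht0 (W := {x : S2 | 0 < ⟪p, (x : E3)⟫ ∧ 0 < ⟪q, (x : E3)⟫}
      ∩ {x : S2 | 0 < ⟪r, (x : E3)⟫}),
    area_split ht0 (W := {x : S2 | 0 < ⟪p, (x : E3)⟫ ∧ 0 < ⟪q, (x : E3)⟫}
      ∩ {x : S2 | 0 < ⟪-r, (x : E3)⟫})]
  have e : ∀ r t : E3, {x : S2 | 0 < ⟪p, (x : E3)⟫ ∧ 0 < ⟪q, (x : E3)⟫}
      ∩ {x : S2 | 0 < ⟪r, (x : E3)⟫} ∩ {x : S2 | 0 < ⟪t, (x : E3)⟫}
      = {x : S2 | 0 < ⟪p, (x : E3)⟫ ∧ 0 < ⟪q, (x : E3)⟫ ∧ 0 < ⟪r, (x : E3)⟫ ∧
        0 < ⟪t, (x : E3)⟫} := by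
    intro r t; ext x; simp only [mem_inter_iff, mem_setOf_eq]; tauto
  rw [e, e, e, e]
  simp only [a4]
  ring

theorem a4_neg (p q r t : E3) : a4 (-p) (-q) (-r) (-t) = a4 p q r t := by
  have hT := Pool.Agent.Helper41.measurePreserving_sphereMap (LinearIsometryEquiv.neg ℝ (E := E3))
  have hopen : IsOpen {x : S2 | 0 < ⟪p, (x : E3)⟫ ∧ 0 < ⟪q, (x : E3)⟫ ∧ 0 < ⟪r, (x : E3)⟫ ∧
      0 < ⟪t, (x : E3)⟫} := by
    have c : ∀ u : E3, Continuous fun x : S2 => ⟪u, (x : E3)⟫ := fun u => by fun_prop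
    exact (isOpen_lt continuous_const (c p)).inter ((isOpen_lt continuous_const (c q)).inter
      ((isOpen_lt continuous_const (c r)).inter (isOpen_lt continuous_const (c t))))
  rw [a4, a4, area, area, ← hT.measure_preimage hopen.measurableSet.nullMeasurableSet]
  congr 2
  ext x
  simp only [mem_setOf_eq, mem_preimage, Pool.Agent.Helper41.sphereMap_coe,
    LinearIsometryEquiv.coe_neg, inner_neg_left, inner_neg_right]

theorem a4_swap12 (p q r t : E3) : a4 q p r t = a4 p q r t := by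
  rw [a4, a4]; congr 1; ext x; simp only [mem_setOf_eq]; tauto
theorem a4_swap13 (p q r t : E3) : a4 r q p t = a4 p q r t := by
  rw [a4, a4]; congr 1; ext x; simp only [mem_setOf_eq]; tauto
theorem a4_swap23 (p q r t : E3) : a4 p r q t = a4 p q r t := by
  rw [a4, a4]; congr 1; ext x; simp only [mem_setOf_eq]; tauto
theorem a4_swap34 (p q r t : E3) : a4 p q t r = a4 p q r t := by
  rw [a4, a4]; congr 1; ext x; simp only [mem_setOf_eq]; tauto
theorem a4_swap24 (p q r t : E3) : a4 p t r q = a4 p q r t := by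
  rw [a4, a4]; congr 1; ext x; simp only [mem_setOf_eq]; tauto
theorem a4_rot (p q r t : E3) : a4 r t p q = a4 p q r t := by
  rw [a4, a4]; congr 1; ext x; simp only [mem_setOf_eq]; tauto

theorem a4_zero {p q r t : E3} {c : Fin 4 → ℝ} (hc : ∀ i, 0 < c i)
    (h : c 0 • p + c 1 • q + c 2 • r + c 3 • t = 0) : a4 p q r t = 0 := by
  have : {x : S2 | 0 < ⟪p, (x : E3)⟫ ∧ 0 < ⟪q, (x : E3)⟫ ∧ 0 < ⟪r, (x : E3)⟫ ∧
      0 < ⟪t, (x : E3)⟫} = ∅ := by
    ext x
    simp only [mem_setOf_eq, mem_empty_iff_false, iff_false]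
    rintro ⟨h1, h2, h3, h4⟩
    have h5 : ⟪c 0 • p + c 1 • q + c 2 • r + c 3 • t, (x : E3)⟫ = 0 := by rw [h, inner_zero_left]
    rw [inner_add_left, inner_add_left, inner_add_left, inner_smul_left, inner_smul_left,
      inner_smul_left, inner_smul_left] at h5
    simp only [conj_trivial] at h5
    have := mul_pos (hc 0) h1
    have := mul_pos (hc 1) h2
    have := mul_pos (hc 2) h3
    have := mul_pos (hc 3) h4
    linarith
  rw [a4, this, area, measure_empty]
  rfl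

/-- the angle -/
noncomputable def ph (p q : E3) : ℝ := Real.arccos (-⟪p, q⟫)

theorem ph_eq (p q : E3) : ph p q = π - Real.arccos ⟪p, q⟫ := Real.arccos_neg _

theorem ph_neg (p q : E3) : π - Real.arccos ⟪p, -q⟫ = π - ph p q := by
  rw [inner_neg_right]; rfl

/-- the sum over the sixteen sign vectors -/
theorem sum_bool (f : (Fin 4 → Bool) → ℝ) : ∑ s, f s =
    f ![true, true, true, true] + f ![true, true, true, false] + f ![true, true, false, true]
    + f ![true, true, false, false] + f ![true, false, true, true] + f ![true, false, true, false]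
    + f ![true, false, false, true] + f ![true, false, false, false]
    + f ![false, true, true, true] + f ![false, true, true, false] + f ![false, true, false, true]
    + f ![false, true, false, false] + f ![false, false, true, true]
    + f ![false, false, true, false]
    + f ![false, false, false, true] + f ![false, false, false, false] := by
  let e : Bool × Bool × Bool × Bool → (Fin 4 → Bool) := fun p => ![p.1, p.2.1, p.2.2.1, p.2.2.2]
  have he : Function.Bijective e := by decide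
  rw [← he.sum_comp]
  simp only [Fintype.sum_prod_type, Fintype.sum_bool, e]
  ring

theorem cell_eq (u : Fin 4 → E3) (a b c d : Bool) :
    area (cell u ![a, b, c, d]) = a4 (sg a • u 0) (sg b • u 1) (sg c • u 2) (sg d • u 3) := by
  rw [a4]
  congr 1
  ext x
  simp only [cell, mem_setOf_eq, inner_smul_left, conj_trivial]
  constructor
  · intro h
    exact ⟨h 0, h 1, h 2, h 3⟩
  · rintro ⟨h0, h1, h2, h3⟩ i
    fin_cases i
    · exact h0
    · exact h1
    · exact h2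
    · exact h3

/-- the defect -/
noncomputable def F (u : Fin 4 → E3) : ℝ :=
  ph (u 0) (u 1) ^ 2 + ph (u 0) (u 2) ^ 2 + ph (u 1) (u 2) ^ 2
    + ph (u 0) (u 3) ^ 2 + ph (u 1) (u 3) ^ 2 + ph (u 2) (u 3) ^ 2
    + (ph (u 0) (u 1) + ph (u 0) (u 2) + ph (u 1) (u 2)
    + ph (u 0) (u 3) + ph (u 1) (u 3) + ph (u 2) (u 3)) ^ 2
    - 6 * π * (ph (u 0) (u 1) + ph (u 0) (u 2) + ph (u 1) (u 2)
    + ph (u 0) (u 3) + ph (u 1) (u 3) + ph (u 2) (u 3)) + 23 / 3 * π ^ 2

theorem Q_formula (u : Fin 4 → E3) (hu : ∀ i, ‖u i‖ = 1) (c : Fin 4 → ℝ) (hc : ∀ i, 0 < c i)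
    (h : c 0 • u 0 + c 1 • u 1 + c 2 • u 2 + c 3 • u 3 = 0) {C : Fin 4 → Set S2}
    (hC : ∀ i, C i = {x : S2 | ⟪u i, (x : E3)⟫ = 0}) :
    Q C = 4 * π ^ 2 / 3 + 4 * F u := by
  rw [Q_eq_sum u 0 hC, sum_bool]
  simp only [cell_eq, sg_true, sg_false, one_smul, neg_one_smul]
  obtain ⟨p, hp⟩ : ∃ p, p = u 0 := ⟨_, rfl⟩
  obtain ⟨q, hq⟩ : ∃ q, q = u 1 := ⟨_, rfl⟩
  obtain ⟨r, hr⟩ : ∃ r, r = u 2 := ⟨_, rfl⟩
  obtain ⟨t, ht⟩ : ∃ t, t = u 3 := ⟨_, rfl⟩
  have np : ‖p‖ = 1 := by rw [hp]; exact hu 0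
  have nq : ‖q‖ = 1 := by rw [hq]; exact hu 1
  have nr : ‖r‖ = 1 := by rw [hr]; exact hu 2
  have nt : ‖t‖ = 1 := by rw [ht]; exact hu 3
  rw [F, ← hp, ← hq, ← hr, ← ht]
  rw [← hp, ← hq, ← hr, ← ht] at h
  -- the seven areas
  have N0 : a4 p q r t = 0 := a4_zero hc h
  have N1 : a4 (-p) (-q) (-r) (-t) = 0 := by rw [a4_neg]; exact N0
  -- antipodal pairs
  have A1 : a4 p q (-r) (-t) = a4 (-p) (-q) r t := by rw [← a4_neg]; simp
  have A2 : a4 p (-q) r (-t) = a4 (-p) q (-r) t := by rw [← a4_neg]; simp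
  have A3 : a4 p (-q) (-r) t = a4 (-p) q r (-t) := by rw [← a4_neg]; simp
  have B0 : a4 p (-q) (-r) (-t) = a4 (-p) q r t := by rw [← a4_neg]; simp
  have B1 : a4 (-p) q (-r) (-t) = a4 p (-q) r t := by rw [← a4_neg]; simp
  have B2 : a4 (-p) (-q) r (-t) = a4 p q (-r) t := by rw [← a4_neg]; simp
  have B3 : a4 (-p) (-q) (-r) t = a4 p q r (-t) := by rw [← a4_neg]; simp
  -- wedges
  have W01 := wedge_eq np nq nr nt
  have W02 := wedge_eq np nr nq nt
  have W03 := wedge_eq np nt nq nr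
  have W12 := wedge_eq nq nr np nt
  have W13 := wedge_eq nq nt np nr
  have W23 := wedge_eq nr nt np nq
  have W01' := wedge_eq np (show ‖-q‖ = 1 by rw [norm_neg]; exact nq) nr nt
  rw [ph_neg] at W01'
  rw [← ph_eq] at W01 W02 W03 W12 W13 W23
  -- reorder arguments
  have s02 : ∀ p q r t : E3, a4 p r q t = a4 p q r t := a4_swap23
  have s03 : ∀ p q r t : E3, a4 p t q r = a4 p q r t := fun p q r t => by
    rw [a4, a4]; congr 1; ext x; simp only [mem_setOf_eq]; tauto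
  have s12 : ∀ p q r t : E3, a4 q r p t = a4 p q r t := fun p q r t => by
    rw [a4, a4]; congr 1; ext x; simp only [mem_setOf_eq]; tauto
  have s13 : ∀ p q r t : E3, a4 q t p r = a4 p q r t := fun p q r t => by
    rw [a4, a4]; congr 1; ext x; simp only [mem_setOf_eq]; tauto
  have s23 : ∀ p q r t : E3, a4 r t p q = a4 p q r t := a4_rot
  rw [s02 p q r t, s02 p (-q) r t, s02 p q r (-t), s02 p (-q) r (-t)] at W02
  rw [s03 p q r t, s03 p (-q) r t, s03 p q (-r) t, s03 p (-q) (-r) t] at W03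
  rw [s12 p q r t, s12 (-p) q r t, s12 p q r (-t), s12 (-p) q r (-t)] at W12
  rw [s13 p q r t, s13 (-p) q r t, s13 p q (-r) t, s13 (-p) q (-r) t] at W13
  rw [s23 p q r t, s23 (-p) q r t, s23 p (-q) r t, s23 (-p) (-q) r t] at W23
  rw [A1, A2, A3, B0, B1, B2, B3, N0, N1]
  rw [N0, A1] at W01
  rw [N0, A2] at W02
  rw [N0, A3] at W03
  rw [N0] at W12 W13 W23
  rw [A2, A3, B0] at W01'
  -- solve
  set T0 := a4 (-p) q r t
  set T1 := a4 p (-q) r t
  set T2 := a4 p q (-r) t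
  set T3 := a4 p q r (-t)
  set R1 := a4 (-p) (-q) r t
  set R2 := a4 (-p) q (-r) t
  set R3 := a4 (-p) q r (-t)
  have e0 : T0 = ph q r + ph q t + ph r t - π := by linarith
  have e1 : T1 = ph p r + ph p t + ph r t - π := by linarith
  have e2 : T2 = ph p q + ph p t + ph q t - π := by linarith
  have e3 : T3 = ph p q + ph p r + ph q r - π := by linarith
  have f1 : R1 = 2 * π - ph p r - ph p t - ph q r - ph q t := by linarith
  have f2 : R2 = 2 * π - ph p q - ph p t - ph q r - ph r t := by linarith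
  have f3 : R3 = 2 * π - ph p q - ph p r - ph q t - ph r t := by linarith
  rw [e0, e1, e2, e3, f1, f2, f3]
  ring

end Pool.Agent.Helper72.GC
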