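import Mathlib

set_option autoImplicit false
set_option maxHeartbeats 2000000

namespace Pool.Agent.Helper72.GC

open Real

/-- tangent line bound for the cosine at `π / 3` -/
theorem cos_tangent {x : ℝ} (h1 : x - π / 3 ≤ 1) (h0 : 0 ≤ x) :
    cos x ≤ 1 / 2 - (√3 / 2) * (x - π / 3) := by
  have h3 : √3 ^ 2 = 3 := Real.sq_sqrt (by norm_num)
  have h3' : 0 ≤ √3 := Real.sqrt_nonneg 3
  have h3u : √3 ≤ 1.7321 := by nlinarith
  obtain ⟨e, he⟩ : ∃ e, e = x - π / 3 := ⟨_, rfl⟩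
  have hx : x = π / 3 + e := by rw [he]; ring
  rw [← he]
  rw [← he] at h1
  have hc : cos x = 1 / 2 * cos e - √3 / 2 * sin e := by
    rw [hx, cos_add, cos_pi_div_three, sin_pi_div_three]
  have hcos := Real.cos_le_one e
  suffices h : √3 * (e - sin e) ≤ 1 - cos e by rw [hc]; linarith
  rcases le_or_gt e 0 with hneg | hpos
  · have : e ≤ sin e := by
      rcases eq_or_lt_of_le hneg with h | h
      · rw [h]; simp
      · exact (Real.lt_sin h).le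
    nlinarith
  · have h2 := Real.sin_gt_sub_cube hpos
    have h4 := Real.cos_bound (x := e) (by rw [abs_of_pos hpos]; exact h1)
    rw [abs_of_pos hpos, abs_le] at h4
    have h5 : √3 * (e - sin e) ≤ 1.7321 * (e ^ 3 / 4) := by
      have h6 : 0 ≤ e - sin e := by linarith [Real.sin_lt hpos]
      calc √3 * (e - sin e) ≤ 1.7321 * (e - sin e) := by nlinarith
        _ ≤ _ := by nlinarith
    have h7 : 1.7321 * (e ^ 3 / 4) ≤ e ^ 2 / 2 - e ^ 4 * (5 / 96) := by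
      have : 0 ≤ e ^ 2 := sq_nonneg e
      have h8 : 0 ≤ 1 / 2 - 1.7321 / 4 * e - 5 / 96 * e ^ 2 := by nlinarith
      nlinarith [mul_nonneg this h8]
    linarith [h4.2]

/-- one dimensional bound at the small face -/
theorem p_bound {p m l c : ℝ} (hp1 : -(π / 2) ≤ p) (hp2 : p ≤ π / 2) (hm : 0 ≤ m)
    (hmc : 2 * m ≤ l * c) : -(l * c - m) ^ 2 ≤ p ^ 2 + 2 * m * p - 2 * (l * c) * sin p := by
  rcases le_or_gt 0 p with h | h
  · have h1 : sin p ≤ p := Real.sin_le h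
    nlinarith [sq_nonneg (p + m - l * c), mul_nonneg (by linarith : (0:ℝ) ≤ l * c) (sub_nonneg.2 h1)]
  · have h1 : 2 / π * (-p) ≤ sin (-p) := Real.mul_le_sin (by linarith) (by linarith)
    rw [Real.sin_neg] at h1
    have h2 : (1:ℝ) / 2 ≤ 2 / π := by
      rw [div_le_div_iff₀ (by norm_num) Real.pi_pos]
      linarith [Real.pi_le_four]
    have h3 : 1 / 2 * (-p) ≤ - sin p := le_trans (by nlinarith) h1
    have h4 : 0 ≤ (l * c) * (- sin p - 1 / 2 * (-p)) :=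
      mul_nonneg (by linarith) (by linarith)
    nlinarith [sq_nonneg p, sq_nonneg (l * c - m), mul_nonneg (by linarith : (0:ℝ) ≤ l * c - 2 * m)
      (by linarith : (0:ℝ) ≤ -p)]

/-- one dimensional bound at the other edges -/
theorem e_bound {a m l w : ℝ} (ha0 : 0 ≤ a) (ha : a - π / 3 ≤ 1) (hl : 0 ≤ l * w) :
    -(1 / 4) * (√3 * (l * w) - 2 * m - π / 3) ^ 2 - l * w ≤
      (a - π / 3) ^ 2 - (2 * m + π / 3) * (a - π / 3) - 2 * (l * w) * cos a := by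
  have h := cos_tangent ha ha0
  have h2 : 2 * (l * w) * cos a ≤ 2 * (l * w) * (1 / 2 - (√3 / 2) * (a - π / 3)) := by
    exact mul_le_mul_of_nonneg_left h (by linarith)
  nlinarith [sq_nonneg (2 * (a - π / 3) + (√3 * (l * w) - 2 * m - π / 3))]

/-- the polynomial inequality at `t = 1` in symmetric variables -/
theorem poly_one {x y : ℝ} (hx : 0 ≤ x) (hy : 0 ≤ y) :
    0 < 0.003 + 0.1075 * (x + y) + 0.84505 * (x ^ 2 + y ^ 2 - x * y) + 0.57735 * (x * y)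
      - 1.0472 * (x ^ 2 + y ^ 2) + 1.1547 * (x + y) * (x ^ 2 + y ^ 2 - x * y)
      - 0.5236 * (x * y) * (x + y) + 0.57735 * (x * y) * (x ^ 2 + y ^ 2 - x * y)
      + 0.3183 * (x ^ 2 + y ^ 2 - x * y) ^ 2 - 0.5236 * (x ^ 2 * y ^ 2) := by
  obtain ⟨w, hw⟩ : ∃ w, w = x + y := ⟨_, rfl⟩
  obtain ⟨v, hv⟩ : ∃ v, v = x * y := ⟨_, rfl⟩
  have hw0 : 0 ≤ w := by rw [hw]; positivity
  have hv0 : 0 ≤ v := by rw [hv]; positivity
  have hvw : 4 * v ≤ w ^ 2 := by rw [hw, hv]; nlinarith [sq_nonneg (x - y)]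
  have e1 : x ^ 2 + y ^ 2 - x * y = w ^ 2 - 3 * v := by rw [hw, hv]; ring
  have e2 : x ^ 2 + y ^ 2 = w ^ 2 - 2 * v := by rw [hw, hv]; ring
  have e3 : x ^ 2 * y ^ 2 = v ^ 2 := by rw [hv]; ring
  rw [e1, e2, e3, ← hv, ← hw]
  obtain ⟨d, hd⟩ : ∃ d, d = w ^ 2 / 4 - v := ⟨_, rfl⟩
  have hd0 : 0 ≤ d := by rw [hd]; linarith
  have hv' : v = w ^ 2 / 4 - d := by rw [hd]; ring
  have hdw : 0 ≤ w ^ 2 / 4 - d := by rw [← hv']; exact hv0
  rw [hv']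
  have base : 0 < 0.003 + 0.1075 * w - 0.17 * w ^ 2 + 0.157 * w ^ 3 + 0.02 * w ^ 4 := by
    nlinarith [sq_nonneg (w - 0.8), mul_nonneg hw0 (sq_nonneg (w - 0.5)), mul_nonneg hw0 (sq_nonneg (w - 0.8)), mul_nonneg hw0 (sq_nonneg (w - 0.6)), sq_nonneg (w * (w - 0.5))]
  nlinarith [base, mul_nonneg hd0 hw0, mul_nonneg hd0 hdw, mul_nonneg (mul_nonneg hd0 hw0) hw0, mul_nonneg hd0 hd0]


/-- the polynomial inequality for all `t ≥ 1` -/
theorem poly_t {t x y : ℝ} (ht : 1 ≤ t) (hx : 0 ≤ x) (hy : 0 ≤ y) :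
    0 < (0.68485 * t ^ 2 - t + 0.3183) + 0.1075 * t * (x + y)
      + (x ^ 2 + y ^ 2 - x * y) * (1.20845 * t ^ 2 - t + 0.6366) + 0.57735 * (x * y)
      - 1.0472 * (x ^ 2 + y ^ 2) + 1.1547 * t * (x + y) * (x ^ 2 + y ^ 2 - x * y)
      - 0.5236 * t * (x * y) * (x + y) + 0.57735 * (x * y) * (x ^ 2 + y ^ 2 - x * y)
      + 0.3183 * (x ^ 2 + y ^ 2 - x * y) ^ 2 - 0.5236 * (x ^ 2 * y ^ 2) := by
  have h1 := poly_one hx hy
  have hs : 0 ≤ t - 1 := by linarith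
  have hw : 0 ≤ x + y := by linarith
  have hxy : 0 ≤ x * y := mul_nonneg hx hy
  have hq : x * y ≤ x ^ 2 + y ^ 2 - x * y := by nlinarith [sq_nonneg (x - y)]
  have hq0 : 0 ≤ x ^ 2 + y ^ 2 - x * y := le_trans hxy hq
  have a1 : 0 ≤ (0.68485 * t ^ 2 - t + 0.3183) - 0.00315 := by nlinarith
  have a2 : 0 ≤ 0.1075 * (t - 1) * (x + y) := by positivity
  have a3 : 0 ≤ (x ^ 2 + y ^ 2 - x * y) * ((1.20845 * t ^ 2 - t + 0.6366) - 0.84505) := by
    apply mul_nonneg hq0; nlinarith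
  have a4 : 0 ≤ (t - 1) * (x + y) * (1.1547 * (x ^ 2 + y ^ 2 - x * y) - 0.5236 * (x * y)) := by
    apply mul_nonneg (mul_nonneg hs hw); nlinarith
  nlinarith [a1, a2, a3, a4, h1]

theorem disc_pos {t u v : ℝ} (ht : 1 ≤ t) (hu : t ≤ u) (hv : t ≤ v) :
    0 < (1 + (t ^ 2 + u ^ 2 + v ^ 2) - (t * u + t * v + u * v)) ^ 2
      + π * (1 + (t ^ 2 + u ^ 2 + v ^ 2) - (t * u + t * v + u * v))
          * ((t * u + t * v + u * v) * (√3 / 3) - t)
      - π ^ 2 * (1 / 12 * (t ^ 2 * (u - v) ^ 2 + u ^ 2 * (t - v) ^ 2 + v ^ 2 * (t - u) ^ 2)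
          + 1 / 3 * (t ^ 2 + u ^ 2 + v ^ 2 - t * u - t * v)) := by
  have h3 : √3 ^ 2 = 3 := Real.sq_sqrt (by norm_num)
  have h3' : 0 ≤ √3 := Real.sqrt_nonneg 3
  have h3l : 0.57735 ≤ √3 / 3 := by
    have : (1.73205 : ℝ) ≤ √3 := by
      apply Real.le_sqrt_of_sq_le; norm_num
    linarith
  obtain ⟨x, hx⟩ : ∃ x, x = u - t := ⟨_, rfl⟩
  obtain ⟨y, hy⟩ : ∃ y, y = v - t := ⟨_, rfl⟩
  have hx0 : 0 ≤ x := by rw [hx]; linarith
  have hy0 : 0 ≤ y := by rw [hy]; linarith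
  have hu' : u = t + x := by rw [hx]; ring
  have hv' : v = t + y := by rw [hy]; ring
  subst hu' hv'
  have hP := poly_t ht hx0 hy0
  obtain ⟨Y, hY⟩ : ∃ Y, Y = 1 + (t ^ 2 + (t + x) ^ 2 + (t + y) ^ 2)
    - (t * (t + x) + t * (t + y) + (t + x) * (t + y)) := ⟨_, rfl⟩
  obtain ⟨A, hA⟩ : ∃ A, A = t * (t + x) + t * (t + y) + (t + x) * (t + y) := ⟨_, rfl⟩
  obtain ⟨Z, hZ⟩ : ∃ Z, Z = 1 / 12 * (t ^ 2 * ((t + x) - (t + y)) ^ 2
    + (t + x) ^ 2 * (t - (t + y)) ^ 2 + (t + y) ^ 2 * (t - (t + x)) ^ 2)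
          + 1 / 3 * (t ^ 2 + (t + x) ^ 2 + (t + y) ^ 2 - t * (t + x) - t * (t + y)) := ⟨_, rfl⟩
  rw [← hY, ← hA, ← hZ]
  have hY0 : 0 ≤ Y := by rw [hY]; nlinarith [sq_nonneg (x - y), sq_nonneg x, sq_nonneg y]
  have hA0 : 0 ≤ A := by rw [hA]; positivity
  have hZ0 : 0 ≤ Z := by
    rw [hZ]
    have : 0 ≤ t ^ 2 + (t + x) ^ 2 + (t + y) ^ 2 - t * (t + x) - t * (t + y) := by
      nlinarith [mul_nonneg (by linarith : (0:ℝ) ≤ t) hx0, mul_nonneg (by linarith : (0:ℝ) ≤ t) hy0]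
    positivity
  have hpu : π ≤ 3.1416 := Real.pi_lt_d4.le
  have hp0 := Real.pi_pos
  have key : 0 < 0.3183 * Y ^ 2 + Y * (0.57735 * A - t) - 3.1416 * Z := by
    have : 0.3183 * Y ^ 2 + Y * (0.57735 * A - t) - 3.1416 * Z
      = (0.68485 * t ^ 2 - t + 0.3183) + 0.1075 * t * (x + y)
      + (x ^ 2 + y ^ 2 - x * y) * (1.20845 * t ^ 2 - t + 0.6366) + 0.57735 * (x * y)
      - 1.0472 * (x ^ 2 + y ^ 2) + 1.1547 * t * (x + y) * (x ^ 2 + y ^ 2 - x * y)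
      - 0.5236 * t * (x * y) * (x + y) + 0.57735 * (x * y) * (x ^ 2 + y ^ 2 - x * y)
      + 0.3183 * (x ^ 2 + y ^ 2 - x * y) ^ 2 - 0.5236 * (x ^ 2 * y ^ 2) := by
      rw [hY, hA, hZ]; ring
    rw [this]; exact hP
  have e1 : π * (0.3183 * Y ^ 2) ≤ Y ^ 2 := by nlinarith [sq_nonneg Y]
  have e2 : π * (Y * (0.57735 * A)) ≤ π * (Y * (A * (√3 / 3))) := by
    apply mul_le_mul_of_nonneg_left _ hp0.le
    apply mul_le_mul_of_nonneg_left _ hY0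
    nlinarith
  have e3 : π ^ 2 * Z ≤ π * (3.1416 * Z) := by
    have : π * (π * Z) ≤ π * (3.1416 * Z) :=
      mul_le_mul_of_nonneg_left (mul_le_mul_of_nonneg_right hpu hZ0) hp0.le
    have e : π ^ 2 * Z = π * (π * Z) := by ring
    rw [e]; exact this
  have e4 := mul_pos hp0 key
  linarith

/-- the multipliers -/
theorem exists_mult {t u v : ℝ} (ht : 1 ≤ t) (hu : t ≤ u) (hv : t ≤ v) :
    ∃ l m : ℝ, 0 < l ∧ 0 ≤ m ∧ 2 * m ≤ l * t ∧ 2 * m ≤ l * u ∧ 2 * m ≤ l * v ∧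
      0 < l * (1 + (t ^ 2 + u ^ 2 + v ^ 2) -
      (t * u + t * v + u * v)) - m ^ 2 - ((l * t - m) ^ 2 + (l * u - m) ^ 2 + (l * v - m) ^ 2)
      - 1 / 4 * ((√3 * (l * (t * u)) - 2 * m - π / 3) ^ 2 +
        (√3 * (l * (t * v)) - 2 * m - π / 3) ^ 2 + (√3 * (l * (u * v)) - 2 * m - π / 3) ^ 2) := by
  have hp0 := Real.pi_pos
  have h3 : √3 ^ 2 = 3 := Real.sq_sqrt (by norm_num)
  obtain ⟨Y, hY⟩ : ∃ Y, Y = 1 + (t ^ 2 + u ^ 2 + v ^ 2) - (t * u + t * v + u * v) := ⟨_, rfl⟩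
  obtain ⟨A, hA⟩ : ∃ A, A = t * u + t * v + u * v := ⟨_, rfl⟩
  obtain ⟨α, hα⟩ : ∃ α, α = t ^ 2 / 4 + ((t - t / 2) ^ 2 + (u - t / 2) ^ 2 + (v - t / 2) ^ 2)
    + 1 / 4 * ((√3 * (t * u) - t) ^ 2 + (√3 * (t * v) - t) ^ 2 + (√3 * (u * v) - t) ^ 2) :=
    ⟨_, rfl⟩
  obtain ⟨β, hβ⟩ : ∃ β, β = Y + π * (A * √3 / 6 - t / 2) := ⟨_, rfl⟩
  have hα0 : 0 < α := by
    rw [hα]
    have : 0 < t ^ 2 / 4 := by positivity
    positivity
  have hdisc : π ^ 2 / 3 * α < β ^ 2 := by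
    have h := disc_pos ht hu hv
    have e : β ^ 2 - π ^ 2 / 3 * α = (1 + (t ^ 2 + u ^ 2 + v ^ 2) - (t * u + t * v + u * v)) ^ 2
      + π * (1 + (t ^ 2 + u ^ 2 + v ^ 2) - (t * u + t * v + u * v))
          * ((t * u + t * v + u * v) * (√3 / 3) - t)
      - π ^ 2 * (1 / 12 * (t ^ 2 * (u - v) ^ 2 + u ^ 2 * (t - v) ^ 2 + v ^ 2 * (t - u) ^ 2)
          + 1 / 3 * (t ^ 2 + u ^ 2 + v ^ 2 - t * u - t * v)) := by
      rw [hβ, hα, hY, hA]
      linear_combination (π ^ 2 * (t * u + t * v + u * v) ^ 2 / 36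
        - π ^ 2 / 12 * ((t * u) ^ 2 + (t * v) ^ 2 + (u * v) ^ 2)) * h3
    linarith only [e, h]
  have hβ0 : 0 < β := by
    have h3l : (1.73205 : ℝ) ≤ √3 := by
      apply Real.le_sqrt_of_sq_le; norm_num
    have hY0 : 0 < Y := by
      rw [hY]; nlinarith only [sq_nonneg (t - u), sq_nonneg (t - v), sq_nonneg (u - v)]
    have hA1 : 3 * t ≤ A := by
      rw [hA]; nlinarith only [ht, hu, hv]
    have : 0 ≤ A * √3 / 6 - t / 2 := by nlinarith only [hA1, h3l, ht]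
    rw [hβ]; positivity
  obtain ⟨l, hl⟩ : ∃ l, l = β / (2 * α) := ⟨_, rfl⟩
  have hl0 : 0 < l := by rw [hl]; positivity
  have hD : 0 < -α * l ^ 2 + β * l - π ^ 2 / 12 := by
    have : -α * l ^ 2 + β * l - π ^ 2 / 12 = (β ^ 2 - π ^ 2 / 3 * α) / (4 * α) := by
      rw [hl]; field_simp; ring
    rw [this]
    apply div_pos _ (by positivity)
    linarith only [hdisc]
  have ht0 : 0 < t := by linarith only [ht]
  refine ⟨l, l * t / 2, hl0, by positivity, by linarith only, ?_, ?_, ?_⟩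
  · nlinarith only [mul_le_mul_of_nonneg_left hu hl0.le]
  · nlinarith only [mul_le_mul_of_nonneg_left hv hl0.le]
  · have hDe : -α * l ^ 2 + β * l - π ^ 2 / 12 = l * (1 + (t ^ 2 + u ^ 2 + v ^ 2) -
      (t * u + t * v + u * v)) - (l * t / 2) ^ 2 - ((l * t - l * t / 2) ^ 2
        + (l * u - l * t / 2) ^ 2 + (l * v - l * t / 2) ^ 2)
      - 1 / 4 * ((√3 * (l * (t * u)) - 2 * (l * t / 2) - π / 3) ^ 2 +
        (√3 * (l * (t * v)) - 2 * (l * t / 2) - π / 3) ^ 2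
          + (√3 * (l * (u * v)) - 2 * (l * t / 2) - π / 3) ^ 2) := by
      rw [hβ, hα, hY, hA]; ring
    rw [← hDe]; exact hD

/-- The main inequality: dihedral angles of a Euclidean tetrahedron (with face areas
`1 ≤ t ≤ u, v`). -/
theorem main_ineq {t u v a b c x y z : ℝ} (ht : 1 ≤ t) (hu : t ≤ u) (hv : t ≤ v)
    (ha : 0 ≤ a) (hb : 0 ≤ b) (hc : 0 ≤ c) (hx : 0 ≤ x) (hy : 0 ≤ y) (hz : 0 ≤ z)
    (hx' : x ≤ π) (hy' : y ≤ π) (hz' : z ≤ π)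
    (hrel : 1 + t ^ 2 + u ^ 2 + v ^ 2 = 2 * (t * u * cos a + t * v * cos b + u * v * cos c)
      + 2 * (t * cos x + u * cos y + v * cos z)) :
    0 < a ^ 2 + b ^ 2 + c ^ 2 + x ^ 2 + y ^ 2 + z ^ 2 + (a + b + c + x + y + z) ^ 2
      - 6 * π * (a + b + c + x + y + z) + 23 / 3 * π ^ 2 := by
  by_contra hF
  rw [not_lt] at hF
  have hp0 := Real.pi_pos
  have hpu : π ≤ 3.1416 := Real.pi_lt_d4.le
  have hF2 : (a - 3 * π / 7) ^ 2 + (b - 3 * π / 7) ^ 2 + (c - 3 * π / 7) ^ 2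
     + (x - 3 * π / 7) ^ 2 + (y - 3 * π / 7) ^ 2 + (z - 3 * π / 7) ^ 2
     + (a + b + c + x + y + z - 18 * π / 7) ^ 2 ≤ π ^ 2 / 21 := by linarith only [hF]
  have hpi : π ^ 2 / 21 ≤ 0.6857 ^ 2 := by
    have := pow_le_pow_left₀ hp0.le hpu 2
    norm_num at this ⊢
    linarith only [this]
  have bd : ∀ s : ℝ, (s - 3 * π / 7) ^ 2 ≤ π ^ 2 / 21 → s - π / 3 ≤ 1 := by
    intro s hs
    have h := (abs_le.1 (abs_le_of_sq_le_sq (le_trans hs hpi) (by norm_num))).2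
    linarith only [h, hpu]
  have q1 := sq_nonneg (a - 3 * π / 7)
  have q2 := sq_nonneg (b - 3 * π / 7)
  have q3 := sq_nonneg (c - 3 * π / 7)
  have q4 := sq_nonneg (x - 3 * π / 7)
  have q5 := sq_nonneg (y - 3 * π / 7)
  have q6 := sq_nonneg (z - 3 * π / 7)
  have q7 := sq_nonneg (a + b + c + x + y + z - 18 * π / 7)
  have ha1 := bd a (by linarith only [hF2, q1, q2, q3, q4, q5, q6, q7])
  have hb1 := bd b (by linarith only [hF2, q1, q2, q3, q4, q5, q6, q7])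
  have hc1 := bd c (by linarith only [hF2, q1, q2, q3, q4, q5, q6, q7])
  obtain ⟨l, m, hl0, hm0, hm1, hm2, hm3, hD⟩ := exists_mult ht hu hv
  have ht0 : 0 < t := by linarith only [ht]
  have hu0 : 0 < u := by linarith only [ht, hu]
  have hv0 : 0 < v := by linarith only [ht, hv]
  have p1 := p_bound (p := π / 2 - x) (m := m) (l := l) (c := t) (by linarith only [hx'])
    (by linarith only [hx]) hm0 hm1
  have p2 := p_bound (p := π / 2 - y) (m := m) (l := l) (c := u) (by linarith only [hy'])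
    (by linarith only [hy]) hm0 hm2
  have p3 := p_bound (p := π / 2 - z) (m := m) (l := l) (c := v) (by linarith only [hz'])
    (by linarith only [hz]) hm0 hm3
  rw [Real.sin_pi_div_two_sub] at p1 p2 p3
  have e1 := e_bound (a := a) (m := m) (l := l) (w := t * u) ha ha1 (by positivity)
  have e2 := e_bound (a := b) (m := m) (l := l) (w := t * v) hb hb1 (by positivity)
  have e3 := e_bound (a := c) (m := m) (l := l) (w := u * v) hc hc1 (by positivity)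
  have hsq := sq_nonneg ((π / 2 - x) + (π / 2 - y) + (π / 2 - z)
    - ((a - π / 3) + (b - π / 3) + (c - π / 3)) - m)
  have hrel' : l * (1 + t ^ 2 + u ^ 2 + v ^ 2) = l * (2 * (t * u * cos a + t * v * cos b
    + u * v * cos c) + 2 * (t * cos x + u * cos y + v * cos z)) := by rw [hrel]
  linarith only [p1, p2, p3, e1, e2, e3, hsq, hrel', hD, hF]

end Pool.Agent.Helper72.GC
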