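import Mathlib
import Pool.Agent.Helper72.GC.Four
import Pool.Agent.Helper72.GC.Ineq

set_option autoImplicit false
set_option maxHeartbeats 1000000

namespace Pool.Agent.Helper72.GC

open MeasureTheory Metric Set
open scoped Real Pointwise RealInnerProductSpace

theorem main2 {t u v a b c x y z : ℝ} (ht : 1 ≤ t) (hu : 1 ≤ u) (hv : 1 ≤ v)
    (ha : 0 ≤ a) (hb : 0 ≤ b) (hc : 0 ≤ c) (hx : 0 ≤ x) (hy : 0 ≤ y) (hz : 0 ≤ z)
    (hx' : x ≤ π) (hy' : y ≤ π) (hz' : z ≤ π)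
    (hrel : 1 + t ^ 2 + u ^ 2 + v ^ 2 = 2 * (t * u * Real.cos a + t * v * Real.cos b
      + u * v * Real.cos c) + 2 * (t * Real.cos x + u * Real.cos y + v * Real.cos z)) :
    0 < a ^ 2 + b ^ 2 + c ^ 2 + x ^ 2 + y ^ 2 + z ^ 2 + (a + b + c + x + y + z) ^ 2
      - 6 * π * (a + b + c + x + y + z) + 23 / 3 * π ^ 2 := by
  rcases le_total t u with h1 | h1
  · rcases le_total t v with h2 | h2
    · exact main_ineq ht h1 h2 ha hb hc hx hy hz hx' hy' hz' hrel
    · have := main_ineq hv h2 (h2.trans h1) hb hc ha hz hx hy hz' hx' hy'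
        (by linarith only [hrel])
      linarith only [this]
  · rcases le_total u v with h2 | h2
    · have := main_ineq hu h1 h2 ha hc hb hy hx hz hy' hx' hz' (by linarith only [hrel])
      linarith only [this]
    · have := main_ineq hv (h2.trans h1) h2 hb hc ha hz hx hy hz' hx' hy'
        (by linarith only [hrel])
      linarith only [this]

theorem main3 {d t u v a b c x y z : ℝ} (hd : 0 < d) (ht : d ≤ t) (hu : d ≤ u) (hv : d ≤ v)
    (ha : 0 ≤ a) (hb : 0 ≤ b) (hc : 0 ≤ c) (hx : 0 ≤ x) (hy : 0 ≤ y) (hz : 0 ≤ z)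
    (hx' : x ≤ π) (hy' : y ≤ π) (hz' : z ≤ π)
    (hrel : d ^ 2 + t ^ 2 + u ^ 2 + v ^ 2 = 2 * (t * u * Real.cos a + t * v * Real.cos b
      + u * v * Real.cos c) + 2 * (d * t * Real.cos x + d * u * Real.cos y
      + d * v * Real.cos z)) :
    0 < a ^ 2 + b ^ 2 + c ^ 2 + x ^ 2 + y ^ 2 + z ^ 2 + (a + b + c + x + y + z) ^ 2
      - 6 * π * (a + b + c + x + y + z) + 23 / 3 * π ^ 2 := by
  refine main2 (t := t / d) (u := u / d) (v := v / d) ((one_le_div hd).2 ht)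
    ((one_le_div hd).2 hu) ((one_le_div hd).2 hv) ha hb hc hx hy hz hx' hy' hz' ?_
  field_simp
  linarith only [hrel]

theorem main4 {d t u v a b c x y z : ℝ} (hd : 0 < d) (ht : 0 < t) (hu : 0 < u) (hv : 0 < v)
    (ha : 0 ≤ a) (hb : 0 ≤ b) (hc : 0 ≤ c) (hx : 0 ≤ x) (hy : 0 ≤ y) (hz : 0 ≤ z)
    (ha' : a ≤ π) (hb' : b ≤ π) (hc' : c ≤ π) (hx' : x ≤ π) (hy' : y ≤ π) (hz' : z ≤ π)
    (hrel : d ^ 2 + t ^ 2 + u ^ 2 + v ^ 2 = 2 * (t * u * Real.cos a + t * v * Real.cos b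
      + u * v * Real.cos c) + 2 * (d * t * Real.cos x + d * u * Real.cos y
      + d * v * Real.cos z)) :
    0 < a ^ 2 + b ^ 2 + c ^ 2 + x ^ 2 + y ^ 2 + z ^ 2 + (a + b + c + x + y + z) ^ 2
      - 6 * π * (a + b + c + x + y + z) + 23 / 3 * π ^ 2 := by
  -- edges: a = (t,u), b = (t,v), c = (u,v), x = (d,t), y = (d,u), z = (d,v)
  have D : d ≤ t → d ≤ u → d ≤ v → 0 < a ^ 2 + b ^ 2 + c ^ 2 + x ^ 2 + y ^ 2 + z ^ 2
      + (a + b + c + x + y + z) ^ 2 - 6 * π * (a + b + c + x + y + z) + 23 / 3 * π ^ 2 :=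
    fun h1 h2 h3 => main3 hd h1 h2 h3 ha hb hc hx hy hz hx' hy' hz' hrel
  have T : t ≤ d → t ≤ u → t ≤ v → 0 < a ^ 2 + b ^ 2 + c ^ 2 + x ^ 2 + y ^ 2 + z ^ 2
      + (a + b + c + x + y + z) ^ 2 - 6 * π * (a + b + c + x + y + z) + 23 / 3 * π ^ 2 := by
    intro h1 h2 h3
    have := main3 ht h1 h2 h3 hy hz hc hx ha hb hx' ha' hb' (by linarith only [hrel])
    linarith only [this]
  have U : u ≤ d → u ≤ t → u ≤ v → 0 < a ^ 2 + b ^ 2 + c ^ 2 + x ^ 2 + y ^ 2 + z ^ 2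
      + (a + b + c + x + y + z) ^ 2 - 6 * π * (a + b + c + x + y + z) + 23 / 3 * π ^ 2 := by
    intro h1 h2 h3
    have := main3 hu h1 h2 h3 hx hz hb hy ha hc hy' ha' hc' (by linarith only [hrel])
    linarith only [this]
  have V : v ≤ d → v ≤ t → v ≤ u → 0 < a ^ 2 + b ^ 2 + c ^ 2 + x ^ 2 + y ^ 2 + z ^ 2
      + (a + b + c + x + y + z) ^ 2 - 6 * π * (a + b + c + x + y + z) + 23 / 3 * π ^ 2 := by
    intro h1 h2 h3
    have := main3 hv h1 h2 h3 hx hy ha hz hb hc hz' hb' hc' (by linarith only [hrel])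
    linarith only [this]
  rcases le_total d t with e1 | e1
  · rcases le_total u v with e2 | e2
    · rcases le_total d u with e3 | e3
      · exact D e1 e3 (e3.trans e2)
      · exact U e3 (e3.trans e1) e2
    · rcases le_total d v with e3 | e3
      · exact D e1 (e3.trans e2) e3
      · exact V e3 (e3.trans e1) e2
  · rcases le_total u v with e2 | e2
    · rcases le_total t u with e3 | e3
      · exact T e1 e3 (e3.trans e2)
      · exact U (e3.trans e1) e3 e2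
    · rcases le_total t v with e3 | e3
      · exact T e1 (e3.trans e2) e3
      · exact V (e3.trans e1) e3 e2

theorem cos_ph {p q : E3} (hp : ‖p‖ = 1) (hq : ‖q‖ = 1) : Real.cos (ph p q) = -⟪p, q⟫ := by
  rw [ph, Real.cos_arccos]
  · linarith [real_inner_le_one_of_norm_eq_one hp hq]
  · linarith [neg_one_le_real_inner_of_norm_eq_one hp hq]

theorem ph_nonneg (p q : E3) : 0 ≤ ph p q := Real.arccos_nonneg _
theorem ph_le (p q : E3) : ph p q ≤ π := Real.arccos_le_pi _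

theorem F_pos (u : Fin 4 → E3) (hu : ∀ i, ‖u i‖ = 1) (c : Fin 4 → ℝ) (hc : ∀ i, 0 < c i)
    (h : c 0 • u 0 + c 1 • u 1 + c 2 • u 2 + c 3 • u 3 = 0) : 0 < F u := by
  have hrel : c 3 ^ 2 + c 0 ^ 2 + c 1 ^ 2 + c 2 ^ 2 = 2 * (c 0 * c 1 * Real.cos (ph (u 0) (u 1))
      + c 0 * c 2 * Real.cos (ph (u 0) (u 2))
      + c 1 * c 2 * Real.cos (ph (u 1) (u 2))) + 2 * (c 3 * c 0 * Real.cos (ph (u 0) (u 3))
      + c 3 * c 1 * Real.cos (ph (u 1) (u 3)) + c 3 * c 2 * Real.cos (ph (u 2) (u 3))) := by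
    rw [cos_ph (hu 0) (hu 1), cos_ph (hu 0) (hu 2), cos_ph (hu 1) (hu 2), cos_ph (hu 0) (hu 3),
      cos_ph (hu 1) (hu 3), cos_ph (hu 2) (hu 3)]
    have h2 : ⟪c 0 • u 0 + c 1 • u 1 + c 2 • u 2 + c 3 • u 3,
      c 0 • u 0 + c 1 • u 1 + c 2 • u 2 + c 3 • u 3⟫ = 0 := by rw [h, inner_zero_left]
    have n : ∀ i, ⟪u i, u i⟫ = 1 := fun i => by
      rw [real_inner_self_eq_norm_sq, hu i]; norm_num
    simp only [inner_add_left, inner_add_right, inner_smul_left, inner_smul_right, conj_trivial,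
      n] at h2
    rw [real_inner_comm (u 0) (u 1), real_inner_comm (u 0) (u 2), real_inner_comm (u 1) (u 2),
      real_inner_comm (u 0) (u 3), real_inner_comm (u 1) (u 3), real_inner_comm (u 2) (u 3)] at h2
    linarith only [h2]
  exact main4 (hc 3) (hc 0) (hc 1) (hc 2) (ph_nonneg _ _) (ph_nonneg _ _) (ph_nonneg _ _)
    (ph_nonneg _ _) (ph_nonneg _ _) (ph_nonneg _ _) (ph_le _ _) (ph_le _ _) (ph_le _ _)
    (ph_le _ _) (ph_le _ _) (ph_le _ _) hrel

/-- a unit vector orthogonal to two given vectors -/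
theorem exists_perp2 (u v : E3) : ∃ w : E3, ‖w‖ = 1 ∧ ⟪u, w⟫ = 0 ∧ ⟪v, w⟫ = 0 := by
  obtain ⟨K, hK⟩ : ∃ K : Submodule ℝ E3, K = Submodule.span ℝ {u, v} := ⟨_, rfl⟩
  have h1 : Kᗮ ≠ ⊥ := by
    intro hbot
    have h2 := Submodule.finrank_add_finrank_orthogonal K
    rw [hbot, finrank_bot] at h2
    have h3 : Module.finrank ℝ K ≤ 2 := by
      classical
      rw [hK]
      have := finrank_span_finset_le_card (R := ℝ) ({u, v} : Finset E3)
      rw [Finset.coe_insert, Finset.coe_singleton] at this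
      exact this.trans Finset.card_le_two
    have h4 : Module.finrank ℝ E3 = 3 := by simp
    omega
  obtain ⟨w, hw, hw0⟩ := Submodule.exists_mem_ne_zero_of_ne_bot h1
  have hu : ⟪u, w⟫ = 0 := (Submodule.mem_orthogonal K w).1 hw u (by
    rw [hK]; exact Submodule.subset_span (by simp))
  have hv : ⟪v, w⟫ = 0 := (Submodule.mem_orthogonal K w).1 hw v (by
    rw [hK]; exact Submodule.subset_span (by simp))
  refine ⟨‖w‖⁻¹ • w, ?_, ?_, ?_⟩
  · rw [norm_smul, norm_inv, norm_norm, inv_mul_cancel₀ (norm_ne_zero_iff.2 hw0)]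
  · rw [inner_smul_right, hu, mul_zero]
  · rw [inner_smul_right, hv, mul_zero]

/-- normal form of a simple arrangement of four great circles -/
theorem exists_normal {C : Fin 4 → Set S2} (hC : IsSimpleArrangement C) :
    ∃ (u : Fin 4 → E3) (c : Fin 4 → ℝ), (∀ i, ‖u i‖ = 1) ∧ (∀ i, 0 < c i) ∧
      (c 0 • u 0 + c 1 • u 1 + c 2 • u 2 + c 3 • u 3 = 0) ∧
      ∀ i, C i = {x : S2 | ⟪u i, (x : E3)⟫ = 0} := by
  choose w hw0 hw using hC.circle
  have hdep : ¬ LinearIndependent ℝ w := by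
    intro hli
    have := hli.fintype_card_le_finrank
    simp at this
  obtain ⟨g, hg, i0, hi0⟩ := Fintype.not_linearIndependent_iff.1 hdep
  -- all coefficients are nonzero
  have hne : ∀ i, g i ≠ 0 := by
    intro i hi
    -- the two other indices
    have hij : i0 ≠ i := fun h => hi0 (h ▸ hi)
    obtain ⟨k, l, hki, hk0, hli, hl0, hkl, hall⟩ : ∃ k l : Fin 4, k ≠ i ∧ k ≠ i0 ∧ l ≠ i ∧ l ≠ i0 ∧
        k ≠ l ∧ ∀ m, m = i ∨ m = i0 ∨ m = k ∨ m = l := by
      revert hij; clear * -; revert i0 i; decide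
    obtain ⟨x, hx1, hx2, hx3⟩ := exists_perp2 (w k) (w l)
    have h1 : ⟪∑ m, g m • w m, x⟫ = 0 := by rw [hg, inner_zero_left]
    rw [sum_inner] at h1
    have h2 : ∑ m, ⟪g m • w m, x⟫ = ⟪g i0 • w i0, x⟫ := by
      apply Finset.sum_eq_single
      · intro m _ hm
        rcases hall m with rfl | rfl | rfl | rfl
        · rw [hi, zero_smul, inner_zero_left]
        · exact absurd rfl hm
        · rw [inner_smul_left, hx2, mul_zero]
        · rw [inner_smul_left, hx3, mul_zero]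
      · intro h; exact absurd (Finset.mem_univ _) h
    rw [h2, inner_smul_left, conj_trivial] at h1
    have h3 : ⟪w i0, x⟫ = 0 := (mul_eq_zero.1 h1).resolve_left hi0
    have hmem : (⟨x, by rw [mem_sphere_zero_iff_norm]; exact hx1⟩ : S2) ∈ C i0 ∩ C k ∩ C l := by
      rw [hw i0, hw k, hw l]
      exact ⟨⟨h3, hx2⟩, hx3⟩
    rw [hC.simple i0 k l hk0.symm hl0.symm hkl] at hmem
    exact hmem
  refine ⟨fun i => (SignType.sign (g i) : ℝ) • (‖w i‖⁻¹ • w i), fun i => |g i| * ‖w i‖, ?_, ?_, ?_, ?_⟩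
  · intro i
    rw [norm_smul, norm_smul, norm_inv, norm_norm, inv_mul_cancel₀ (norm_ne_zero_iff.2 (hw0 i)),
      mul_one]
    rcases lt_or_gt_of_ne (hne i) with h | h
    · simp [sign_neg h]
    · simp [sign_pos h]
  · intro i
    exact mul_pos (abs_pos.2 (hne i)) (norm_pos_iff.2 (hw0 i))
  · have e : ∀ i, (|g i| * ‖w i‖) • ((SignType.sign (g i) : ℝ) • (‖w i‖⁻¹ • w i)) = g i • w i := by
      intro i
      rw [smul_smul, smul_smul]
      congr 1
      have h1 : |g i| * (SignType.sign (g i) : ℝ) = g i := by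
        rw [mul_comm]; exact sign_mul_abs (g i)
      have h2 : ‖w i‖ ≠ 0 := norm_ne_zero_iff.2 (hw0 i)
      calc |g i| * ‖w i‖ * (SignType.sign (g i) : ℝ) * ‖w i‖⁻¹
          = (|g i| * (SignType.sign (g i) : ℝ)) * (‖w i‖ * ‖w i‖⁻¹) := by ring
        _ = g i := by rw [h1, mul_inv_cancel₀ h2, mul_one]
    simp only [e]
    rw [← hg, Fin.sum_univ_four]
  · intro i
    rw [hw i]
    ext x
    simp only [mem_setOf_eq, inner_smul_left, conj_trivial]
    have h2 : ‖w i‖⁻¹ ≠ 0 := inv_ne_zero (norm_ne_zero_iff.2 (hw0 i))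
    have h3 : (SignType.sign (g i) : ℝ) ≠ 0 := by
      rcases lt_or_gt_of_ne (hne i) with h | h
      · simp [sign_neg h]
      · simp [sign_pos h]
    constructor
    · intro h; rw [h]; simp
    · intro h
      exact (mul_eq_zero.1 ((mul_eq_zero.1 h).resolve_left h3)).resolve_left h2

theorem Q_gt {C : Fin 4 → Set S2} (hC : IsSimpleArrangement C) : 4 * π ^ 2 / 3 < Q C := by
  obtain ⟨u, c, hu, hc, h, hCu⟩ := exists_normal hC
  rw [Q_formula u hu c hc h hCu]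
  have := F_pos u hu c hc h
  linarith

end Pool.Agent.Helper72.GC
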