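import Mathlib
import Pool.Agent.Helper72.GC.Fin

set_option autoImplicit false
set_option maxHeartbeats 1000000

namespace Pool.Agent.Helper72.GC

open MeasureTheory Metric Set Filter Topology
open scoped Real Pointwise RealInnerProductSpace

/-- the normals of the approximating arrangements -/
noncomputable def fam (t : ℝ) : Fin 4 → E3 :=
  ![!₂[Real.cos t, 0, Real.sin t],
    !₂[-(1 / 2) * Real.cos t, √3 / 2 * Real.cos t, Real.sin t],
    !₂[-(1 / 2) * Real.cos t, -(√3 / 2) * Real.cos t, Real.sin t],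
    !₂[0, 0, -1]]

theorem sq3 : √3 * √3 = 3 := Real.mul_self_sqrt (by norm_num)

theorem inner_fam (x y : E3) : ⟪x, y⟫ = x 0 * y 0 + x 1 * y 1 + x 2 * y 2 := by
  rw [PiLp.inner_apply, Fin.sum_univ_three]
  simp only [RCLike.inner_apply, conj_trivial]
  ring

theorem norm_fam (t : ℝ) (i : Fin 4) : ‖fam t i‖ = 1 := by
  have h : ‖fam t i‖ ^ 2 = 1 := by
    rw [← real_inner_self_eq_norm_sq, inner_fam]
    have hsc := Real.sin_sq_add_cos_sq t
    have h3 := sq3
    fin_cases i
    · simp [fam]; linarith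
    · simp [fam]; nlinarith
    · simp [fam]; nlinarith
    · simp [fam]
  have h0 := norm_nonneg (fam t i)
  nlinarith

theorem rel_fam (t : ℝ) : (1 : ℝ) • fam t 0 + (1 : ℝ) • fam t 1 + (1 : ℝ) • fam t 2
    + (3 * Real.sin t) • fam t 3 = 0 := by
  ext i
  fin_cases i <;> simp [fam] <;> ring

/-- the circles of the family -/
noncomputable def famC (t : ℝ) : Fin 4 → Set S2 := fun i => {x : S2 | ⟪fam t i, (x : E3)⟫ = 0}

theorem fam_no_common {t : ℝ} (h0 : 0 < t) (h1 : t < π / 2) (i j k : Fin 4) (hij : i ≠ j)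
    (hik : i ≠ k) (hjk : j ≠ k) : famC t i ∩ famC t j ∩ famC t k = ∅ := by
  have hs : 0 < Real.sin t := Real.sin_pos_of_pos_of_lt_pi h0 (by linarith [Real.pi_pos])
  have hc : 0 < Real.cos t := Real.cos_pos_of_mem_Ioo ⟨by linarith, h1⟩
  ext x
  simp only [mem_inter_iff, mem_empty_iff_false, iff_false]
  rintro ⟨⟨hi, hj⟩, hk⟩
  -- all four inner products vanish
  have hrel : ⟪fam t 0, (x : E3)⟫ + ⟪fam t 1, (x : E3)⟫ + ⟪fam t 2, (x : E3)⟫
      + 3 * Real.sin t * ⟪fam t 3, (x : E3)⟫ = 0 := by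
    have h : ⟪(1 : ℝ) • fam t 0 + (1 : ℝ) • fam t 1 + (1 : ℝ) • fam t 2
      + (3 * Real.sin t) • fam t 3, (x : E3)⟫ = 0 := by rw [rel_fam, inner_zero_left]
    simpa only [inner_add_left, inner_smul_left, conj_trivial, one_mul] using h
  obtain ⟨l, hl⟩ : ∃ l : Fin 4, ∀ m, m = i ∨ m = j ∨ m = k ∨ m = l := by
    revert hij hik hjk; clear * -; revert i j k; decide
  have hne : ∀ m, m ≠ l → ⟪fam t m, (x : E3)⟫ = 0 := by
    intro m hm
    rcases hl m with rfl | rfl | rfl | rfl
    · exact hi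
    · exact hj
    · exact hk
    · exact absurd rfl hm
  have hall : ∀ m, ⟪fam t m, (x : E3)⟫ = 0 := by
    intro m
    by_cases hm : m = l
    · subst hm
      fin_cases m
      · have a1 := hne 1 (by decide)
        have a2 := hne 2 (by decide)
        have a3 := hne 3 (by decide)
        rw [a1, a2, a3] at hrel
        simpa using hrel
      · have a1 := hne 0 (by decide)
        have a2 := hne 2 (by decide)
        have a3 := hne 3 (by decide)
        rw [a1, a2, a3] at hrel
        simpa using hrel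
      · have a1 := hne 0 (by decide)
        have a2 := hne 1 (by decide)
        have a3 := hne 3 (by decide)
        rw [a1, a2, a3] at hrel
        simpa using hrel
      · have a1 := hne 0 (by decide)
        have a2 := hne 1 (by decide)
        have a3 := hne 2 (by decide)
        rw [a1, a2, a3] at hrel
        have : 3 * Real.sin t * ⟪fam t 3, (x : E3)⟫ = 0 := by linarith
        rcases mul_eq_zero.1 this with h | h
        · linarith
        · exact h
    · exact hne m hm
  have b0 := hall 0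
  have b1 := hall 1
  have b2 := hall 2
  have b3 := hall 3
  rw [inner_fam] at b0 b1 b2 b3
  simp [fam] at b0 b1 b2 b3
  have x2 : (x : E3) 2 = 0 := b3
  rw [x2] at b0 b1 b2
  have x0 : (x : E3) 0 = 0 := by
    have : Real.cos t * (x : E3) 0 = 0 := by simpa using b0
    exact (mul_eq_zero.1 this).resolve_left hc.ne'
  rw [x0] at b1
  have x1 : (x : E3) 1 = 0 := by
    have h3 : (0 : ℝ) < √3 := Real.sqrt_pos.2 (by norm_num)
    have : (√3 / 2 * Real.cos t) * (x : E3) 1 = 0 := by simpa using b1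
    exact (mul_eq_zero.1 this).resolve_left (by positivity)
  have hn : ‖(x : E3)‖ = 1 := norm_eq_of_mem_sphere x
  have : ‖(x : E3)‖ ^ 2 = 0 := by
    rw [← real_inner_self_eq_norm_sq, inner_fam, x0, x1, x2]; ring
  rw [hn] at this
  norm_num at this

theorem fam_simple {t : ℝ} (h0 : 0 < t) (h1 : t < π / 2) : IsSimpleArrangement (famC t) := by
  refine ⟨fun i => ⟨fam t i, ?_, rfl⟩, ?_, fun i j k => fam_no_common h0 h1 i j k⟩
  · intro h
    have := norm_fam t i
    rw [h] at this
    simp at this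
  · intro i j hij
    by_contra hne
    obtain ⟨k, hki, hkj⟩ : ∃ k : Fin 4, k ≠ i ∧ k ≠ j := by
      clear * -; revert i j; decide
    obtain ⟨x, hx1, hx2, hx3⟩ := exists_perp2 (fam t i) (fam t k)
    have hmem : (⟨x, by rw [mem_sphere_zero_iff_norm]; exact hx1⟩ : S2)
        ∈ famC t i ∩ famC t j ∩ famC t k := by
      rw [← hij]
      exact ⟨⟨hx2, hx2⟩, hx3⟩
    rw [fam_no_common h0 h1 i j k hne hki.symm hkj.symm] at hmem
    exact hmem

/-- the explicit value of `Q` along the family -/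
noncomputable def famF (t : ℝ) : ℝ :=
  3 * Real.arccos (1 / 2 * Real.cos t ^ 2 - Real.sin t ^ 2) ^ 2
    + 3 * Real.arccos (Real.sin t) ^ 2
    + (3 * Real.arccos (1 / 2 * Real.cos t ^ 2 - Real.sin t ^ 2)
      + 3 * Real.arccos (Real.sin t)) ^ 2
    - 6 * π * (3 * Real.arccos (1 / 2 * Real.cos t ^ 2 - Real.sin t ^ 2)
      + 3 * Real.arccos (Real.sin t)) + 23 / 3 * π ^ 2

theorem F_fam (t : ℝ) : F (fam t) = famF t := by
  have h3 := sq3
  have e01 : ph (fam t 0) (fam t 1) = Real.arccos (1 / 2 * Real.cos t ^ 2 - Real.sin t ^ 2) := by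
    rw [ph, inner_fam]; congr 1; simp [fam]; ring
  have e02 : ph (fam t 0) (fam t 2) = Real.arccos (1 / 2 * Real.cos t ^ 2 - Real.sin t ^ 2) := by
    rw [ph, inner_fam]; congr 1; simp [fam]; ring
  have e12 : ph (fam t 1) (fam t 2) = Real.arccos (1 / 2 * Real.cos t ^ 2 - Real.sin t ^ 2) := by
    rw [ph, inner_fam]; congr 1; simp [fam]
    linear_combination (Real.cos t ^ 2 / 4) * h3
  have e03 : ph (fam t 0) (fam t 3) = Real.arccos (Real.sin t) := by
    rw [ph, inner_fam]; congr 1; simp [fam]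
  have e13 : ph (fam t 1) (fam t 3) = Real.arccos (Real.sin t) := by
    rw [ph, inner_fam]; congr 1; simp [fam]
  have e23 : ph (fam t 2) (fam t 3) = Real.arccos (Real.sin t) := by
    rw [ph, inner_fam]; congr 1; simp [fam]
  rw [F, e01, e02, e12, e03, e13, e23, famF]
  ring

theorem famF_zero : famF 0 = 0 := by
  have h : Real.arccos (1 / 2) = π / 3 := by
    rw [← Real.cos_pi_div_three, Real.arccos_cos]
    · positivity
    · linarith [Real.pi_pos]
  have h2 : Real.arccos 0 = π / 2 := Real.arccos_zero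
  have h' : Real.arccos (2⁻¹) = π / 3 := by rw [← h]; norm_num
  simp only [famF, Real.cos_zero, Real.sin_zero]
  norm_num
  rw [h]
  ring

theorem continuous_famF : Continuous famF := by
  unfold famF
  have c1 : Continuous fun t : ℝ => Real.arccos (1 / 2 * Real.cos t ^ 2 - Real.sin t ^ 2) :=
    Real.continuous_arccos.comp (by fun_prop)
  have c2 : Continuous fun t : ℝ => Real.arccos (Real.sin t) :=
    Real.continuous_arccos.comp (by fun_prop)
  fun_prop

theorem Q_fam {t : ℝ} (h0 : 0 < t) (h1 : t < π / 2) :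
    Q (famC t) = 4 * π ^ 2 / 3 + 4 * famF t := by
  have hs : 0 < Real.sin t := Real.sin_pos_of_pos_of_lt_pi h0 (by linarith [Real.pi_pos])
  rw [Q_formula (fam t) (norm_fam t) ![1, 1, 1, 3 * Real.sin t] ?_ ?_ (C := famC t) (fun i => rfl), F_fam]
  · intro i
    fin_cases i <;> simp [hs]
  · exact rel_fam t

theorem S_four : S 4 = 4 * π ^ 2 / 3 := by
  have hbdd : ∀ q ∈ {q : ℝ | ∃ C : Fin 4 → Set S2, IsSimpleArrangement C ∧ Q C = q},
      4 * π ^ 2 / 3 ≤ q := by
    rintro q ⟨C, hC, rfl⟩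
    exact (Q_gt hC).le
  have hne : {q : ℝ | ∃ C : Fin 4 → Set S2, IsSimpleArrangement C ∧ Q C = q}.Nonempty :=
    ⟨_, famC 1, fam_simple one_pos (by linarith [Real.pi_gt_three]), rfl⟩
  apply le_antisymm
  · have hlim : Tendsto (fun t => 4 * π ^ 2 / 3 + 4 * famF t) (𝓝[>] 0)
        (𝓝 (4 * π ^ 2 / 3 + 4 * famF 0)) := by
      apply Tendsto.mono_left _ nhdsWithin_le_nhds
      exact ((continuous_const.add (continuous_const.mul continuous_famF)).tendsto 0)
    rw [famF_zero, mul_zero, add_zero] at hlim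
    refine ge_of_tendsto hlim ?_
    filter_upwards [Ioo_mem_nhdsGT (show (0 : ℝ) < π / 2 by positivity)] with t ht
    rw [← Q_fam ht.1 ht.2]
    exact csInf_le ⟨_, hbdd⟩ ⟨famC t, fam_simple ht.1 ht.2, rfl⟩
  · exact le_csInf hne hbdd

end Pool.Agent.Helper72.GC
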